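import Pool.Agent.H5.GR.Main

set_option autoImplicit false

/-
Proof sketch (helper75). Let I = {i ∈ S : ∀ j ∈ S, i < j → i + H < j}; `GR.iso_card` gives
|I| ≤ n1 / (H+1) + 1. Let T = S \ (R ∪ I). For i ∈ T let j = min {j ∈ S : i < j}; i ∉ I gives some
j' ∈ S with i < j' ≤ i + H, so j ≤ i + H, and i ∉ R with hR gives that
K(i) = {k ∈ S' : i < k < j} has more than h elements. For i < i' in T, K(i) lies below i' and K(i')
above i', so the K(i) are disjoint: (h+1) |T| ≤ ∑ |K(i)| ≤ |S'|; |T| ≥ |S| - |R| - |I|.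
-/

namespace Pool.Agent.H75G

/-- gaps of `S` which are short and contain few elements of `S'` are collected in `R`; the other
short gaps give many elements of `S'` -/
theorem comb_step (S S' : Finset ℕ) (H h n1 : ℕ) (hn : ∀ i ∈ S, i < n1)
    (R : Finset ℕ)
    (hR : ∀ i ∈ S, ∀ j ∈ S, i < j → j ≤ i + H →
      (S'.filter (fun k => i < k ∧ k < j)).card ≤ h → i ∈ R) :
    ((h : ℝ) + 1) * ((S.card : ℝ) - R.card - ((n1 : ℝ) / (H + 1) + 1)) ≤ S'.card := by
  classical
  set I : Finset ℕ := S.filter (fun i => ∀ j ∈ S, i < j → i + H < j) with hI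
  set T : Finset ℕ := S \ (R ∪ I) with hT
  have hIc : (I.card : ℝ) ≤ (n1 : ℝ) / (H + 1) + 1 :=
    H5.GR.iso_card S H n1 hn I (Finset.filter_subset _ _) fun i hi => (Finset.mem_filter.mp hi).2
  let nx : ℕ → ℕ := fun i => if h : (S.filter (fun j => i < j)).Nonempty then
    (S.filter (fun j => i < j)).min' h else 0
  have hnx_le : ∀ i, ∀ j ∈ S, i < j → nx i ≤ j := by
    intro i j hj hij
    have hm : j ∈ S.filter (fun j => i < j) := Finset.mem_filter.mpr ⟨hj, hij⟩
    have hne : (S.filter (fun j => i < j)).Nonempty := ⟨j, hm⟩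
    simp only [nx, dif_pos hne]
    exact Finset.min'_le _ _ hm
  have hnx_mem : ∀ i, (∃ j ∈ S, i < j) → nx i ∈ S ∧ i < nx i := by
    rintro i ⟨j, hj, hij⟩
    have hm : j ∈ S.filter (fun j => i < j) := Finset.mem_filter.mpr ⟨hj, hij⟩
    have hne : (S.filter (fun j => i < j)).Nonempty := ⟨j, hm⟩
    simp only [nx, dif_pos hne]
    exact Finset.mem_filter.mp (Finset.min'_mem _ hne)
  have hK : ∀ i ∈ T, h + 1 ≤ (S'.filter (fun k => i < k ∧ k < nx i)).card := by
    intro i hi
    rw [hT, Finset.mem_sdiff, Finset.mem_union, not_or] at hi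
    obtain ⟨hiS, hiR, hiI⟩ := hi
    rw [hI, Finset.mem_filter, not_and] at hiI
    have h1 := hiI hiS
    push Not at h1
    obtain ⟨j', hj', hij', hjH⟩ := h1
    obtain ⟨h2, h3⟩ := hnx_mem i ⟨j', hj', hij'⟩
    by_contra h4
    exact hiR (hR i hiS (nx i) h2 h3 ((hnx_le i j' hj' hij').trans hjH) (by omega))
  have hdis : (T : Set ℕ).PairwiseDisjoint (fun i => S'.filter (fun k => i < k ∧ k < nx i)) := by
    have key : ∀ i ∈ T, ∀ i' ∈ T, i < i' →
        Disjoint (S'.filter (fun k => i < k ∧ k < nx i)) (S'.filter (fun k => i' < k ∧ k < nx i')) := by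
      intro i _ i' hi' hlt
      rw [Finset.disjoint_left]
      intro k hk hk'
      have h1 := (Finset.mem_filter.mp hk).2.2
      have h2 := (Finset.mem_filter.mp hk').2.1
      have h3 := hnx_le i i' (Finset.mem_sdiff.mp hi').1 hlt
      omega
    intro i hi i' hi' hne
    rcases lt_or_gt_of_ne hne with h1 | h1
    · exact key i hi i' hi' h1
    · exact (key i' hi' i hi h1).symm
  have h1 : T.card * (h + 1) ≤ S'.card := by
    calc T.card * (h + 1) = ∑ i ∈ T, (h + 1) := by rw [Finset.sum_const, smul_eq_mul]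
      _ ≤ ∑ i ∈ T, (S'.filter (fun k => i < k ∧ k < nx i)).card := Finset.sum_le_sum hK
      _ = (T.biUnion fun i => S'.filter (fun k => i < k ∧ k < nx i)).card :=
          (Finset.card_biUnion fun i hi i' hi' hne => hdis hi hi' hne).symm
      _ ≤ S'.card := Finset.card_le_card (Finset.biUnion_subset.mpr fun i _ =>
          Finset.filter_subset _ _)
  have h2 : S.card ≤ T.card + (R.card + I.card) := by
    calc S.card ≤ (T ∪ (R ∪ I)).card := by
          refine Finset.card_le_card fun x hx => ?_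
          by_cases hxx : x ∈ R ∪ I
          · exact Finset.mem_union_right _ hxx
          · exact Finset.mem_union_left _ (Finset.mem_sdiff.mpr ⟨hx, hxx⟩)
      _ ≤ T.card + (R ∪ I).card := Finset.card_union_le _ _
      _ ≤ T.card + (R.card + I.card) := by
          have := Finset.card_union_le R I
          omega
  have h3 : (S.card : ℝ) ≤ T.card + (R.card + I.card) := by exact_mod_cast h2
  have h4 : (T.card : ℝ) * (h + 1) ≤ S'.card := by exact_mod_cast h1
  have h5 : (0 : ℝ) ≤ (h : ℝ) + 1 := by positivity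
  calc ((h : ℝ) + 1) * ((S.card : ℝ) - R.card - ((n1 : ℝ) / (H + 1) + 1))
      ≤ ((h : ℝ) + 1) * T.card := by
        refine mul_le_mul_of_nonneg_left ?_ h5
        linarith
    _ = T.card * (h + 1) := by ring
    _ ≤ S'.card := h4

end Pool.Agent.H75G
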