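import Pool.Agent.H5.GR.Main

set_option autoImplicit false

namespace Pool.Agent.H75G

open Pool.Agent.H5.GR

/-- the support of a pattern -/
def supp {H : ℕ} (Φ : Fin (H + 1) → ℕ) : Finset (Fin (H + 1)) :=
  Finset.univ.filter (fun o => Φ o ≠ 0)

/-- indices `i` with a fixed residue mod 3, divisors `Φ o ∣ x (i + o)` and `(x (i + t) - x i) κ`
within `ε` of a fixed real number `y` -/
noncomputable def grp (N n0 n1 H : ℕ) (ε : ℝ) (t r : ℕ) (y : ℝ) (Φ : Fin (H + 1) → ℕ) :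
    Finset ℕ := by
  classical
  exact (Finset.Ico n0 n1).filter (fun i => i + t < n1 ∧ (i + 1) % 3 = r ∧ x i ≠ x (i + t) ∧
    (∀ o ∈ supp Φ, Φ o ∣ x (i + (o : ℕ))) ∧
    (∀ o ∈ supp Φ, ∀ o' ∈ supp Φ, o ≠ o' → x (i + (o : ℕ)) ≠ x (i + (o' : ℕ))) ∧
    |y - ((x (i + t) : ℝ) - x i) * kap N (i + t)| ≤ ε)

/-- first indices of pairs `i < j ≤ i + H` with `v i, v j ≤ P` and at most `h` indices `k`
strictly between with `v k ≤ Q` -/
noncomputable def rareK (N n0 n1 H h : ℕ) (P Q : ℝ) : Finset ℕ := by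
  classical
  exact (Finset.Ico n0 n1).filter (fun i => ∃ j, i < j ∧ j < n1 ∧ j ≤ i + H ∧
    (v N i : ℝ) ≤ P ∧ (v N j : ℝ) ≤ P ∧
    ((Finset.Ioo i j).filter (fun k => (v N k : ℝ) ≤ Q)).card ≤ h)

/-- indices of the window with `v ≤ P` -/
noncomputable def lev (N n0 n1 : ℕ) (P : ℝ) : Finset ℕ := by
  classical
  exact (Finset.Ico n0 n1).filter (fun i => (v N i : ℝ) ≤ P)

theorem mem_lev (N n0 n1 : ℕ) (P : ℝ) (i : ℕ) :
    i ∈ lev N n0 n1 P ↔ (n0 ≤ i ∧ i < n1) ∧ (v N i : ℝ) ≤ P := by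
  classical
  unfold lev
  rw [Finset.mem_filter, Finset.mem_Ico]

/-- the thresholds -/
noncomputable def th (lam : ℝ) (m : ℕ) : ℝ := Real.exp (lam / (28 * 3 ^ m))

theorem th_succ (lam : ℝ) (m : ℕ) : th lam (m + 1) ^ 3 = th lam m := by
  unfold th
  rw [← Real.exp_nat_mul]
  congr 1
  rw [pow_succ]
  field_simp
  norm_num
  ring

theorem th_pos (lam : ℝ) (m : ℕ) : 0 < th lam m := Real.exp_pos _

theorem one_le_th (lam : ℝ) (m : ℕ) (h : 0 ≤ lam) : 1 ≤ th lam m := by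
  unfold th
  rw [← Real.exp_zero]
  apply Real.exp_le_exp.mpr
  positivity

end Pool.Agent.H75G
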