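import Pool.Agent.H75G.Defs

set_option autoImplicit false

/-
Proof sketch (helper75). By `GR.x_eq_cases` one has j = i + 2. Let d = gcd (g i) (g (i+2)).
a (i+2) = a i - g i - g (i+1) (`a_succ` twice), d divides a i, a (i+2) and g i, hence g (i+1),
hence x (i+1); and d divides x i. From x i = x (i+2) (cases of b) x (i+1) = x i + 5, so d ∣ 5,
d ≤ 5. Since g i and g (i+2) divide x i = x (i+2), lcm ∣ x i, so g i * g (i+2) = d * lcm ≤ 5 * x i.
Finally (g i * v i) * (g (i+2) * v (i+2)) = x i * x i (`g_mul_v`), so x i ≤ 5 * (v i * v (i+2)).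
-/

namespace Pool.Agent.H75G

open Pool.Agent.H5.GR

/-- two indices with the same `x` cannot both have small `v` -/
theorem v_dup (N i j : ℕ) (hi : 1 ≤ i) (hij : i < j) (h : x i = x j) :
    x i ≤ 5 * (v N i * v N j) := by
  have hj := x_eq_cases i j hij h
  subst hj
  have hx1 : x (i + 1) = x i + 5 := by
    have e1 := b_cases (i + 1)
    have e2 := b_cases (i + 2)
    have e3 := b_cases (i + 3)
    unfold x at h ⊢
    have h3 : i + 2 + 1 = i + 3 := by omega
    have h2 : i + 1 + 1 = i + 2 := by omega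
    rw [h3] at h
    rw [h2]
    omega
  set d : ℕ := Nat.gcd (g N i) (g N (i + 2)) with hd
  have hd1 : d ∣ g N i := Nat.gcd_dvd_left _ _
  have hd2 : d ∣ g N (i + 2) := Nat.gcd_dvd_right _ _
  have ha1 : a N (i + 1) = a N i - (g N i : ℤ) := a_succ N i hi
  have ha2 : a N (i + 2) = a N (i + 1) - (g N (i + 1) : ℤ) := a_succ N (i + 1) (by omega)
  have hz1 : (d : ℤ) ∣ a N i := dvd_trans (Int.natCast_dvd_natCast.mpr hd1) (g_dvd_a N i)
  have hz2 : (d : ℤ) ∣ a N (i + 2) := dvd_trans (Int.natCast_dvd_natCast.mpr hd2) (g_dvd_a N (i + 2))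
  have hz3 : (d : ℤ) ∣ (g N i : ℤ) := Int.natCast_dvd_natCast.mpr hd1
  have hz4 : (d : ℤ) ∣ (g N (i + 1) : ℤ) := by
    have he : (g N (i + 1) : ℤ) = a N i - (g N i : ℤ) - a N (i + 2) := by
      rw [ha2, ha1]; ring
    rw [he]
    exact dvd_sub (dvd_sub hz1 hz3) hz2
  have hd4 : d ∣ g N (i + 1) := Int.natCast_dvd_natCast.mp hz4
  have hdx1 : d ∣ x (i + 1) := dvd_trans hd4 (g_dvd_x N (i + 1))
  have hdx : d ∣ x i := dvd_trans hd1 (g_dvd_x N i)
  have hd5 : d ∣ 5 := by
    rw [hx1] at hdx1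
    exact (Nat.dvd_add_right hdx).mp hdx1
  have hdle : d ≤ 5 := Nat.le_of_dvd (by norm_num) hd5
  have hl : Nat.lcm (g N i) (g N (i + 2)) ∣ x i := by
    apply Nat.lcm_dvd (g_dvd_x N i)
    rw [h]
    exact g_dvd_x N (i + 2)
  have hlle : Nat.lcm (g N i) (g N (i + 2)) ≤ x i := Nat.le_of_dvd (x_pos i) hl
  have hprod : g N i * g N (i + 2) ≤ 5 * x i := by
    have := Nat.gcd_mul_lcm (g N i) (g N (i + 2))
    rw [← this]
    exact Nat.mul_le_mul hdle hlle
  have e1 := g_mul_v N i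
  have e2 := g_mul_v N (i + 2)
  rw [← h] at e2
  have hxx : x i * x i = (g N i * g N (i + 2)) * (v N i * v N (i + 2)) := by
    calc x i * x i = (g N i * v N i) * (g N (i + 2) * v N (i + 2)) := by rw [e1, e2]
      _ = _ := by ring
  have hfin : x i * x i ≤ x i * (5 * (v N i * v N (i + 2))) := by
    rw [hxx]
    calc (g N i * g N (i + 2)) * (v N i * v N (i + 2))
        ≤ (5 * x i) * (v N i * v N (i + 2)) := Nat.mul_le_mul_right _ hprod
      _ = x i * (5 * (v N i * v N (i + 2))) := by ring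
  exact Nat.le_of_mul_le_mul_left hfin (x_pos i)

end Pool.Agent.H75G
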