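import Pool.Agent.H75G.Defs

set_option autoImplicit false

/-
Proof sketch (helper75). Put P = th (m+1), th m = P^3 (`th_succ`), r = 2*3^m + 1, and
s = exp lam, P = exp (lam / (84 * 3^m)). hm gives 25 * 9^m * log G ≤ lam / (84 * 3^m), i.e.
(A) G^(25 * 9^m) ≤ P. Also G^k ≤ P for all k ≤ 25 * 9^m, 1 + log (th m) ≤ 1 + lam ≤ G (lam ≥ 0).
ε ≤ 12 G^2 / th m (as G^.. * th m ≤ s). Product of the factors:
3 H (10 (H+6) P^2 + 1) ≤ 33 G^2 P^2; 8 (H (1 + log th m))^r ≤ 8 G^(2r);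
8 ε C^3 s (H+6)^(r^2) ≤ 96 G^(5 + r^2) s / P^3; (th m)^r = P^(3r) ≤ s^(3r / (84 * 3^m)) and 3 r ≤ 9 * 3^m,
so (th m)^r ≤ exp (9 lam / 84).
First product: 33*8*96 G^(7 + 2r + r^2) s / P ≤ s / (64 C) because 33*8*96*64 * G^(8+2r+r^2) ≤ P:
33*8*96*64 ≤ G^2 (G ≥ 2000) and 10 + 2r + r^2 ≤ 25 * 9^m.
Second product: 33*8 G^(2+2r) P^2 exp (9 lam / 84) ≤ s / (64 C):
33*8*64 G^(3+2r) ≤ P, P^3 * exp (9 lam/84) ≤ exp (3 lam/84 + 9 lam/84) ≤ exp lam.
(33*8*96*64 = 1622016.) Check the constants yourself; there is plenty of room (th could be s^(1/28)).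
-/

namespace Pool.Agent.H75G

/-- the exponential form of `th` -/
theorem num_s_eq (s lam : ℝ) (m : ℕ) (hs : s = Real.exp lam) :
    s = th lam (m + 1) ^ (84 * 3 ^ m) := by
  unfold th
  rw [hs, ← Real.exp_nat_mul]
  congr 1
  push_cast
  rw [pow_succ]
  have h3 : (0 : ℝ) < 3 ^ m := by positivity
  field_simp
  ring

theorem num_A (G lam : ℝ) (m : ℕ) (hG : 2000 ≤ G)
    (hm : 2100 * 27 ^ m * Real.log G ≤ lam) :
    G ^ (25 * 9 ^ m) ≤ th lam (m + 1) := by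
  have hG0 : 0 < G := by linarith
  unfold th
  rw [← Real.exp_log (show 0 < G ^ (25 * 9 ^ m) by positivity)]
  apply Real.exp_le_exp.mpr
  rw [Real.log_pow]
  push_cast
  have h3 : (0 : ℝ) < 3 ^ m := by positivity
  rw [le_div_iff₀ (by positivity)]
  have e : (27 : ℝ) ^ m = 9 ^ m * 3 ^ m := by
    rw [← mul_pow]; norm_num
  rw [e] at hm
  calc 25 * 9 ^ m * Real.log G * (28 * 3 ^ (m + 1))
      = 2100 * (9 ^ m * 3 ^ m) * Real.log G := by rw [pow_succ]; ring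
    _ ≤ lam := hm

theorem num_pow_le (G lam : ℝ) (m : ℕ) (hG : 2000 ≤ G)
    (hm : 2100 * 27 ^ m * Real.log G ≤ lam) (k : ℕ) (hk : k ≤ 25 * 9 ^ m) :
    G ^ k ≤ th lam (m + 1) :=
  (pow_le_pow_right₀ (by linarith) hk).trans (num_A G lam m hG hm)

theorem num_lam_nonneg (G lam : ℝ) (m : ℕ) (hG : 2000 ≤ G)
    (hm : 2100 * 27 ^ m * Real.log G ≤ lam) : 0 ≤ lam := by
  refine le_trans ?_ hm
  have : 0 ≤ Real.log G := Real.log_nonneg (by linarith)
  positivity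

theorem num_eps (s G lam ε : ℝ) (m H : ℕ) (hs : s = Real.exp lam) (hG : 2000 ≤ G)
    (hH : (H : ℝ) + 48 ≤ G) (hm : 2100 * 27 ^ m * Real.log G ≤ lam)
    (hε : ε = 2 * H / th lam m + 10 * ((H : ℝ) + 48) ^ 2 / s) :
    ε ≤ 12 * G ^ 2 / th lam (m + 1) ^ 3 := by
  have hsP := num_s_eq s lam m hs
  have h1 : 1 ≤ th lam (m + 1) := one_le_th _ _ (num_lam_nonneg G lam m hG hm)
  have hP0 : 0 < th lam (m + 1) := by linarith
  have h3 : 1 ≤ 3 ^ m := Nat.one_le_pow _ _ (by norm_num)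
  have hle : th lam (m + 1) ^ 3 ≤ s := by
    rw [hsP]
    exact pow_le_pow_right₀ h1 (by omega)
  have hH0 : (0 : ℝ) ≤ H := Nat.cast_nonneg H
  rw [hε, ← th_succ]
  have a1 : 2 * (H : ℝ) / th lam (m + 1) ^ 3 ≤ 2 * G ^ 2 / th lam (m + 1) ^ 3 := by
    apply div_le_div_of_nonneg_right _ (by positivity)
    nlinarith
  have a2 : 10 * ((H : ℝ) + 48) ^ 2 / s ≤ 10 * G ^ 2 / th lam (m + 1) ^ 3 := by
    apply div_le_div₀ (by positivity) _ (by positivity) hle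
    have : ((H : ℝ) + 48) ^ 2 ≤ G ^ 2 := pow_le_pow_left₀ (by positivity) hH 2
    linarith
  calc 2 * (H : ℝ) / th lam (m + 1) ^ 3 + 10 * ((H : ℝ) + 48) ^ 2 / s
      ≤ 2 * G ^ 2 / th lam (m + 1) ^ 3 + 10 * G ^ 2 / th lam (m + 1) ^ 3 := add_le_add a1 a2
    _ = 12 * G ^ 2 / th lam (m + 1) ^ 3 := by ring

/-- the numerical estimate for one step -/
theorem num (s C G lam ε : ℝ) (m H : ℕ) (hs : s = Real.exp lam) (hC : 1 ≤ C) (hG : 2000 ≤ G)
    (hH : (H : ℝ) + 48 ≤ G) (hH1 : 1 ≤ H) (hCG : C ≤ G) (hlG : 1 + lam ≤ G)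
    (hm : 2100 * 27 ^ m * Real.log G ≤ lam)
    (hε : ε = 2 * H / th lam m + 10 * ((H : ℝ) + 48) ^ 2 / s) :
    3 * H * (10 * ((H : ℝ) + 6) * th lam (m + 1) ^ 2 + 1) *
        ((8 * ε * C ^ 3 * s * ((H : ℝ) + 6) ^ ((2 * 3 ^ m + 1) ^ 2) + th lam m ^ (2 * 3 ^ m + 1)) *
          (8 * ((H : ℝ) * (1 + Real.log (th lam m))) ^ (2 * 3 ^ m + 1))) ≤ s / (32 * C) := by
  have hsP := num_s_eq s lam m hs
  have hlam := num_lam_nonneg G lam m hG hm
  have h1 : 1 ≤ th lam (m + 1) := one_le_th _ _ hlam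
  have hεle := num_eps s G lam ε m H hs hG hH hm hε
  have hpow := num_pow_le G lam m hG hm
  have hth : th lam m = th lam (m + 1) ^ 3 := (th_succ lam m).symm
  have hlog : Real.log (th lam m) = lam / (28 * 3 ^ m) := by
    unfold th
    rw [Real.log_exp]
  have h3m : (1 : ℝ) ≤ 3 ^ m := one_le_pow₀ (by norm_num)
  have hlogle : 1 + Real.log (th lam m) ≤ G := by
    rw [hlog]
    have : lam / (28 * 3 ^ m) ≤ lam := by
      apply div_le_self hlam
      nlinarith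
    linarith
  have hlog0 : 0 ≤ Real.log (th lam m) := by
    rw [hlog]; positivity
  have hε0 : 0 ≤ ε := by
    rw [hε]
    have : 0 < s := by rw [hs]; exact Real.exp_pos _
    have := th_pos lam m
    positivity
  have h3n : 1 ≤ 3 ^ m := Nat.one_le_pow _ _ (by norm_num)
  have h9n : 3 ^ m ≤ 9 ^ m := Nat.pow_le_pow_left (by norm_num) m
  have h99 : 9 ^ m = 3 ^ m * 3 ^ m := by
    rw [← mul_pow]; norm_num
  have hGk1 : G ^ (10 + 2 * (2 * 3 ^ m + 1) + (2 * 3 ^ m + 1) ^ 2) ≤ th lam (m + 1) := by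
    apply hpow
    nlinarith
  have hGk2 : G ^ (5 + 2 * (2 * 3 ^ m + 1)) ≤ th lam (m + 1) := by
    apply hpow
    nlinarith
  have hpows : th lam (m + 1) ^ (3 + 3 * (2 * 3 ^ m + 1)) ≤ s := by
    rw [hsP]
    exact pow_le_pow_right₀ h1 (by omega)
  have hs0 : 0 < s := by rw [hs]; exact Real.exp_pos _
  rw [hth] at *
  generalize hP : th lam (m + 1) = P at *
  generalize hr : 2 * 3 ^ m + 1 = r at *
  have hP0 : 0 < P := by linarith
  have hH0 : (0 : ℝ) ≤ H := Nat.cast_nonneg H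
  have hG0 : 0 < G := by linarith
  have hC0 : 0 < C := by linarith
  -- the factors
  have f1 : 3 * (H : ℝ) * (10 * ((H : ℝ) + 6) * P ^ 2 + 1) ≤ 33 * G ^ 2 * P ^ 2 := by
    have hP2 : 1 ≤ P ^ 2 := one_le_pow₀ h1
    have b1 : 10 * ((H : ℝ) + 6) * P ^ 2 + 1 ≤ 11 * G * P ^ 2 := by
      have : 10 * ((H : ℝ) + 6) * P ^ 2 ≤ 10 * G * P ^ 2 := by
        apply mul_le_mul_of_nonneg_right _ (by positivity)
        linarith
      nlinarith
    calc 3 * (H : ℝ) * (10 * ((H : ℝ) + 6) * P ^ 2 + 1)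
        ≤ 3 * G * (11 * G * P ^ 2) := by
          apply mul_le_mul _ b1 (by positivity) (by positivity)
          linarith
      _ = 33 * G ^ 2 * P ^ 2 := by ring
  have f2 : 8 * ((H : ℝ) * (1 + Real.log (P ^ 3))) ^ r ≤ 8 * G ^ (2 * r) := by
    apply mul_le_mul_of_nonneg_left _ (by norm_num)
    rw [pow_mul]
    apply pow_le_pow_left₀ (by positivity)
    calc (H : ℝ) * (1 + Real.log (P ^ 3)) ≤ G * G := by
          apply mul_le_mul (by linarith) hlogle (by positivity) hG0.le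
      _ = G ^ 2 := by ring
  have f3 : 8 * ε * C ^ 3 * s * ((H : ℝ) + 6) ^ (r ^ 2) ≤ 96 * G ^ (5 + r ^ 2) * s / P ^ 3 := by
    have c1 : C ^ 3 ≤ G ^ 3 := pow_le_pow_left₀ hC0.le hCG 3
    have c2 : ((H : ℝ) + 6) ^ (r ^ 2) ≤ G ^ (r ^ 2) :=
      pow_le_pow_left₀ (by positivity) (by linarith) _
    calc 8 * ε * C ^ 3 * s * ((H : ℝ) + 6) ^ (r ^ 2)
        ≤ 8 * (12 * G ^ 2 / P ^ 3) * G ^ 3 * s * G ^ (r ^ 2) := by
          apply mul_le_mul _ c2 (by positivity) (by positivity)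
          apply mul_le_mul_of_nonneg_right _ hs0.le
          apply mul_le_mul _ c1 (by positivity) (by positivity)
          apply mul_le_mul_of_nonneg_left hεle (by norm_num)
      _ = 96 * G ^ (5 + r ^ 2) * s / P ^ 3 := by
          rw [pow_add]
          ring
  have g1 : 1622016 * G ^ (8 + 2 * r + r ^ 2) ≤ P := by
    refine le_trans ?_ hGk1
    have : G ^ (10 + 2 * r + r ^ 2) = G ^ 2 * G ^ (8 + 2 * r + r ^ 2) := by
      rw [← pow_add]; congr 1; ring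
    rw [this]
    apply mul_le_mul_of_nonneg_right _ (by positivity)
    nlinarith
  have g2 : 16896 * G ^ (3 + 2 * r) ≤ P := by
    refine le_trans ?_ hGk2
    have : G ^ (5 + 2 * r) = G ^ 2 * G ^ (3 + 2 * r) := by
      rw [← pow_add]; congr 1; ring
    rw [this]
    apply mul_le_mul_of_nonneg_right _ (by positivity)
    nlinarith
  have e1 : 33 * G ^ 2 * P ^ 2 * (96 * G ^ (5 + r ^ 2) * s / P ^ 3 * (8 * G ^ (2 * r)))
      ≤ s / (64 * G) := by
    have : 33 * G ^ 2 * P ^ 2 * (96 * G ^ (5 + r ^ 2) * s / P ^ 3 * (8 * G ^ (2 * r)))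
        = 25344 * G ^ (7 + 2 * r + r ^ 2) * s / P := by
      have : G ^ (7 + 2 * r + r ^ 2) = G ^ 2 * G ^ (5 + r ^ 2) * G ^ (2 * r) := by
        rw [← pow_add, ← pow_add]; congr 1; ring
      rw [this]
      field_simp
      ring
    rw [this, div_le_div_iff₀ hP0 (by positivity)]
    calc 25344 * G ^ (7 + 2 * r + r ^ 2) * s * (64 * G)
        = s * (1622016 * G ^ (8 + 2 * r + r ^ 2)) := by
          have : G ^ (8 + 2 * r + r ^ 2) = G * G ^ (7 + 2 * r + r ^ 2) := by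
            rw [← pow_succ']; congr 1; ring
          rw [this]; ring
      _ ≤ s * P := mul_le_mul_of_nonneg_left g1 hs0.le
  have e2 : 33 * G ^ 2 * P ^ 2 * ((P ^ 3) ^ r * (8 * G ^ (2 * r))) ≤ s / (64 * G) := by
    rw [le_div_iff₀ (by positivity)]
    calc 33 * G ^ 2 * P ^ 2 * ((P ^ 3) ^ r * (8 * G ^ (2 * r))) * (64 * G)
        = (16896 * G ^ (3 + 2 * r)) * P ^ (2 + 3 * r) := by
          have a1 : G ^ (3 + 2 * r) = G ^ 2 * G * G ^ (2 * r) := by
            rw [← pow_succ, ← pow_add]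
          have a2 : P ^ (2 + 3 * r) = P ^ 2 * (P ^ 3) ^ r := by
            rw [← pow_mul, ← pow_add]
          rw [a1, a2]; ring
      _ ≤ P * P ^ (2 + 3 * r) := mul_le_mul_of_nonneg_right g2 (by positivity)
      _ = P ^ (3 + 3 * r) := by rw [← pow_succ']; congr 1; ring
      _ ≤ s := hpows
  calc 3 * (H : ℝ) * (10 * ((H : ℝ) + 6) * P ^ 2 + 1) *
        ((8 * ε * C ^ 3 * s * ((H : ℝ) + 6) ^ (r ^ 2) + (P ^ 3) ^ r) *
          (8 * ((H : ℝ) * (1 + Real.log (P ^ 3))) ^ r))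
      ≤ 33 * G ^ 2 * P ^ 2 *
        ((96 * G ^ (5 + r ^ 2) * s / P ^ 3 + (P ^ 3) ^ r) * (8 * G ^ (2 * r))) := by
        apply mul_le_mul f1 _ (by positivity) (by positivity)
        apply mul_le_mul (add_le_add f3 le_rfl) f2 (by positivity) (by positivity)
    _ = 33 * G ^ 2 * P ^ 2 * (96 * G ^ (5 + r ^ 2) * s / P ^ 3 * (8 * G ^ (2 * r))) +
        33 * G ^ 2 * P ^ 2 * ((P ^ 3) ^ r * (8 * G ^ (2 * r))) := by ring
    _ ≤ s / (64 * G) + s / (64 * G) := add_le_add e1 e2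
    _ = s / (32 * G) := by field_simp; ring
    _ ≤ s / (32 * C) := by
        apply div_le_div_of_nonneg_left hs0.le (by positivity)
        linarith

/-- the side conditions for one step -/
theorem num_side (s G lam ε : ℝ) (m H : ℕ) (hs : s = Real.exp lam) (hG : 2000 ≤ G)
    (hH : (H : ℝ) + 48 ≤ G) (hm : 2100 * 27 ^ m * Real.log G ≤ lam)
    (hε : ε = 2 * H / th lam m + 10 * ((H : ℝ) + 48) ^ 2 / s) :
    10 * th lam m ^ 2 < s ∧ 2 * ((H : ℝ) + 6) ≤ s ∧ ε ≤ 1 ∧ 32 * G ≤ s ∧ G ≤ th lam (m + 1) := by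
  have hsP := num_s_eq s lam m hs
  have hlam := num_lam_nonneg G lam m hG hm
  have h1 : 1 ≤ th lam (m + 1) := one_le_th _ _ hlam
  have hεle := num_eps s G lam ε m H hs hG hH hm hε
  have hpow := num_pow_le G lam m hG hm
  have h3n : 1 ≤ 3 ^ m := Nat.one_le_pow _ _ (by norm_num)
  have h9n : 1 ≤ 9 ^ m := Nat.one_le_pow _ _ (by norm_num)
  have hth : th lam m = th lam (m + 1) ^ 3 := (th_succ lam m).symm
  have p1 : G ^ 1 ≤ th lam (m + 1) := hpow 1 (by omega)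
  have p2 : G ^ 2 ≤ th lam (m + 1) := hpow 2 (by omega)
  have p7 : th lam (m + 1) ^ 7 ≤ s := by
    rw [hsP]; exact pow_le_pow_right₀ h1 (by omega)
  have ps : th lam (m + 1) ≤ s := by
    rw [hsP]; exact le_self_pow₀ h1 (by positivity)
  rw [hth]
  generalize hP : th lam (m + 1) = P at *
  have hG0 : 0 < G := by linarith
  have hPG : G ≤ P := by simpa using p1
  have hP0 : 0 < P := by linarith
  refine ⟨?_, ?_, ?_, ?_, hPG⟩
  · calc 10 * (P ^ 3) ^ 2 = 10 * P ^ 6 := by ring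
      _ < P * P ^ 6 := by
          apply mul_lt_mul_of_pos_right _ (by positivity)
          linarith
      _ = P ^ 7 := by ring
      _ ≤ s := p7
  · nlinarith
  · refine hεle.trans ?_
    rw [div_le_one (by positivity)]
    have : P ^ 3 = P * P * P := by ring
    rw [this]
    have h2 : 12 ≤ P * P := by nlinarith
    nlinarith
  · nlinarith

end Pool.Agent.H75G
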