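import Pool.Agent.H75G.RareCard
import Pool.Agent.H75G.Comb
import Pool.Agent.H75G.Num

set_option autoImplicit false

namespace Pool.Agent.H75G

open Pool.Agent.H5.GR

theorem th_anti (lam : ℝ) (h : 0 ≤ lam) {m k : ℕ} (hmk : m ≤ k) : th lam k ≤ th lam m := by
  unfold th
  apply Real.exp_le_exp.mpr
  apply div_le_div_of_nonneg_left h (by positivity)
  have : (3 : ℝ) ^ m ≤ 3 ^ k := pow_le_pow_right₀ (by norm_num) hmk
  linarith

/-- one step: from the threshold `m + 1` to the threshold `m` the number of indices grows by `3 ^ m` -/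
theorem step (N n0 n1 : ℕ) (s C G lam : ℝ) (hw : Win N n0 n1 s C) (hn1 : (n1 : ℝ) ≤ C * s)
    (hs : s = Real.exp lam) (hG : 2000 ≤ G) (hG1 : 64 * C ^ 2 + 50 ≤ G) (hlG : 1 + lam ≤ G)
    (m : ℕ) (hm : 2100 * 27 ^ m * Real.log G ≤ lam)
    (hS : s / (8 * C) ≤ ((lev N n0 n1 (th lam (m + 1))).card : ℝ)) :
    3 ^ m * ((lev N n0 n1 (th lam (m + 1))).card : ℝ) ≤ ((lev N n0 n1 (th lam m)).card : ℝ) := by
  classical
  have hC := hw.hC
  have hC2 : 1 ≤ C ^ 2 := one_le_pow₀ hC
  have hC0 : 0 < C := by linarith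
  obtain ⟨H, hH1, hH2⟩ : ∃ H : ℕ, 64 * C ^ 2 ≤ (H : ℝ) ∧ (H : ℝ) ≤ 64 * C ^ 2 + 1 := by
    refine ⟨⌈64 * C ^ 2⌉₊, Nat.le_ceil _, ?_⟩
    exact (Nat.ceil_lt_add_one (by positivity)).le
  have hHG : (H : ℝ) + 48 ≤ G := by linarith
  have hHone : 1 ≤ H := by
    have : (1 : ℝ) ≤ H := by linarith
    exact_mod_cast this
  have hCG : C ≤ G := by nlinarith
  have hlogG : 0 ≤ Real.log G := Real.log_nonneg (by linarith)
  have hlam0 : 0 ≤ lam := le_trans (by positivity) hm
  obtain ⟨ε, hε⟩ : ∃ ε : ℝ, ε = 2 * H / th lam m + 10 * ((H : ℝ) + 48) ^ 2 / s := ⟨_, rfl⟩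
  obtain ⟨k1, k2, k3, k4, k5⟩ := num_side s G lam ε m H hs hG hHG hm hε
  have hP : 1 ≤ th lam (m + 1) := one_le_th lam (m + 1) hlam0
  have hPQ : th lam (m + 1) ≤ th lam m := th_anti lam hlam0 (Nat.le_succ m)
  have h3 : 1 ≤ 3 ^ m := Nat.one_le_pow _ _ (by norm_num)
  have hh : 2 * 3 ^ m - 1 + 2 = 2 * 3 ^ m + 1 := by omega
  have hcard := rareK_card N n0 n1 s C hw H (2 * 3 ^ m - 1) hHone (th lam (m + 1)) (th lam m)
    hP hPQ k1 k2 ε hε k3
  rw [hh] at hcard
  have hR : ((rareK N n0 n1 H (2 * 3 ^ m - 1) (th lam (m + 1)) (th lam m)).card : ℝ) ≤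
      s / (32 * C) :=
    hcard.trans (num s C G lam ε m H hs hC hG hHG hHone hCG hlG hm hε)
  have hcomb := comb_step (lev N n0 n1 (th lam (m + 1))) (lev N n0 n1 (th lam m)) H
    (2 * 3 ^ m - 1) n1 (fun i hi => ((mem_lev N n0 n1 _ i).mp hi).1.2)
    (rareK N n0 n1 H (2 * 3 ^ m - 1) (th lam (m + 1)) (th lam m)) (by
      intro i hi j hj hij hjH hK
      rw [mem_lev] at hi hj
      unfold rareK
      rw [Finset.mem_filter, Finset.mem_Ico]
      refine ⟨⟨hi.1.1, hi.1.2⟩, j, hij, hj.1.2, hjH, hi.2, hj.2, ?_⟩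
      refine le_trans (Finset.card_le_card ?_) hK
      intro k hk
      rw [Finset.mem_filter, Finset.mem_Ioo] at hk
      rw [Finset.mem_filter, mem_lev]
      exact ⟨⟨⟨by omega, by omega⟩, hk.2⟩, hk.1⟩)
  set S : ℝ := ((lev N n0 n1 (th lam (m + 1))).card : ℝ) with hSdef
  set R : ℝ := ((rareK N n0 n1 H (2 * 3 ^ m - 1) (th lam (m + 1)) (th lam m)).card : ℝ) with hRdef
  have hcast : (((2 * 3 ^ m - 1 : ℕ) : ℝ) + 1) = 2 * 3 ^ m := by
    rw [Nat.cast_sub (by omega)]
    push_cast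
    ring
  rw [hcast] at hcomb
  have e1 : s / (32 * C) = (s / (8 * C)) / 4 := by
    field_simp
    ring
  have e2 : (n1 : ℝ) / (H + 1) ≤ (s / (8 * C)) / 8 := by
    rw [div_div, div_le_div_iff₀ (by positivity) (by positivity)]
    calc (n1 : ℝ) * (8 * C * 8) ≤ (C * s) * (8 * C * 8) := by
          apply mul_le_mul_of_nonneg_right hn1 (by positivity)
      _ = s * (64 * C ^ 2) := by ring
      _ ≤ s * (H + 1) := by
          apply mul_le_mul_of_nonneg_left (by linarith)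
          have := hw.hs
          linarith
  have e3 : 1 ≤ (s / (8 * C)) / 8 := by
    rw [div_div, le_div_iff₀ (by positivity)]
    have : C ≤ C ^ 2 := by nlinarith
    nlinarith
  have e4 : S / 2 ≤ S - R - ((n1 : ℝ) / (H + 1) + 1) := by linarith
  calc 3 ^ m * S = 2 * 3 ^ m * (S / 2) := by ring
    _ ≤ 2 * 3 ^ m * (S - R - ((n1 : ℝ) / (H + 1) + 1)) := by
        apply mul_le_mul_of_nonneg_left e4 (by positivity)
    _ ≤ _ := hcomb

/-- the main estimate with explicit hypotheses -/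
theorem core2 (N : ℕ) (s C G lam : ℝ) (J : ℕ) (hsN : s ^ 2 = N) (hs : s = Real.exp lam)
    (hC : 1 ≤ C) (hG : 2000 ≤ G) (hG1 : 64 * C ^ 2 + 50 ≤ G) (hlG : 1 + lam ≤ G)
    (hJ : 2100 * 27 ^ J * Real.log G ≤ lam) (hbig : 8 * C ^ 2 < 3 ^ (J * (J - 1) / 2)) :
    C * s ≤ f N := by
  classical
  by_contra hcon
  push Not at hcon
  have hC0 : 0 < C := by linarith
  have hC2 : 1 ≤ C ^ 2 := one_le_pow₀ hC
  have hlogG : 0 ≤ Real.log G := Real.log_nonneg (by linarith)
  have hlam0 : 0 ≤ lam := le_trans (by positivity) hJ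
  have hm : ∀ m ≤ J, 2100 * 27 ^ m * Real.log G ≤ lam := by
    intro m hmJ
    refine le_trans ?_ hJ
    apply mul_le_mul_of_nonneg_right _ hlogG
    apply mul_le_mul_of_nonneg_left _ (by norm_num)
    exact pow_le_pow_right₀ (by norm_num) hmJ
  have hJ1 : 1 ≤ J := by
    rcases Nat.eq_zero_or_pos J with h | h
    · subst h
      norm_num at hbig
      nlinarith
    · exact h
  -- facts from `num_side`
  obtain ⟨_, _, _, k4, k5⟩ := num_side s G lam (2 * ((0 : ℕ) : ℝ) / th lam (J - 1) +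
    10 * (((0 : ℕ) : ℝ) + 48) ^ 2 / s) (J - 1) 0 hs hG (by push_cast; linarith)
    (hm (J - 1) (by omega)) rfl
  have hJJ : J - 1 + 1 = J := by omega
  rw [hJJ] at k5
  have hs0 : 0 < s := by rw [hs]; exact Real.exp_pos _
  obtain ⟨n0, n1, hw, hn1, hsum⟩ := exists_window N s C (by linarith) hsN hC hcon
  have hbc := big_card N n0 n1 s C hw hn1 hsum
  have hlev : ∀ m ≤ J, s / (8 * C) ≤ ((lev N n0 n1 (th lam m)).card : ℝ) := by
    intro m hmJ
    refine hbc.trans ?_
    have : big N n0 n1 s C ⊆ lev N n0 n1 (th lam m) := by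
      intro i hi
      have h1 := big_v N n0 n1 s C hw i hi
      rw [mem_big] at hi
      rw [mem_lev]
      refine ⟨hi.1, ?_⟩
      have h2 := th_anti lam hlam0 hmJ
      linarith
    exact_mod_cast Finset.card_le_card this
  have key : ∀ k ≤ J, (3 : ℝ) ^ (J * (J - 1) / 2) * (s / (8 * C)) ≤
      3 ^ ((J - k) * (J - k - 1) / 2) * ((lev N n0 n1 (th lam (J - k))).card : ℝ) := by
    intro k
    induction k with
    | zero =>
      intro _
      apply mul_le_mul_of_nonneg_left _ (by positivity)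
      exact hlev J le_rfl
    | succ k ih =>
      intro hk
      have ih' := ih (by omega)
      refine ih'.trans ?_
      obtain ⟨m, hmdef⟩ : ∃ m, m = J - (k + 1) := ⟨_, rfl⟩
      have hmk : J - k = m + 1 := by omega
      rw [hmk, ← hmdef]
      have hst := step N n0 n1 s C G lam hw hn1 hs hG hG1 hlG m (hm m (by omega))
        (hlev (m + 1) (by omega))
      have hexp : (m + 1) * (m + 1 - 1) / 2 = m * (m - 1) / 2 + m := by
        rcases Nat.eq_zero_or_pos m with h | h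
        · subst h; rfl
        · obtain ⟨p, rfl⟩ : ∃ p, m = p + 1 := ⟨m - 1, by omega⟩
          simp only [Nat.add_sub_cancel]
          have : (p + 1 + 1) * (p + 1) = (p + 1) * p + (p + 1) * 2 := by ring
          rw [this, Nat.add_mul_div_right _ _ (by norm_num)]
      rw [hexp, pow_add, mul_assoc]
      exact mul_le_mul_of_nonneg_left hst (by positivity)
  have hfin := key J le_rfl
  rw [Nat.sub_self] at hfin
  norm_num at hfin
  have hcard : ((lev N n0 n1 (th lam 0)).card : ℝ) ≤ C * s := by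
    refine le_trans ?_ hn1
    have : lev N n0 n1 (th lam 0) ⊆ Finset.range n1 := by
      intro i hi
      rw [mem_lev] at hi
      rw [Finset.mem_range]
      exact hi.1.2
    have h2 := Finset.card_le_card this
    rw [Finset.card_range] at h2
    exact_mod_cast h2
  have h1 : (3 : ℝ) ^ (J * (J - 1) / 2) * (s / (8 * C)) ≤ C * s := hfin.trans hcard
  rw [mul_div_assoc', div_le_iff₀ (by positivity)] at h1
  have h2 : (3 : ℝ) ^ (J * (J - 1) / 2) * s ≤ (8 * C ^ 2) * s := by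
    calc (3 : ℝ) ^ (J * (J - 1) / 2) * s ≤ C * s * (8 * C) := h1
      _ = (8 * C ^ 2) * s := by ring
  have h3 := le_of_mul_le_mul_right h2 hs0
  linarith

end Pool.Agent.H75G
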