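import Mathlib
import Pool.Agent.H5.GR.Defs
import Pool.Agent.H75G.Iter

set_option autoImplicit false

namespace Pool.Agent.H75G

open Filter Topology
open Pool.Agent.H5.GR

theorem three_le_exp : (3 : ℝ) ≤ Real.exp (111 / 100) := by
  have h1 : Real.exp (111 / 100) = Real.exp 1 * Real.exp (11 / 100) := by
    rw [← Real.exp_add]
    norm_num
  have h2 := Real.exp_one_gt_d9
  have h3 := Real.add_one_le_exp (11 / 100 : ℝ)
  rw [h1]
  nlinarith

/-- the choice of the parameters in terms of `l = log log N` -/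
theorem params_l : ∀ᶠ l : ℝ in atTop, ∃ (J : ℕ) (G : ℝ),
    2000 ≤ G ∧ 64 * Real.exp (l ^ 2 / 50) ^ 2 + 50 ≤ G ∧
    1 + Real.exp l / 2 ≤ G ∧ 2100 * 27 ^ J * Real.log G ≤ Real.exp l / 2 ∧
    8 * Real.exp (l ^ 2 / 50) ^ 2 < 3 ^ (J * (J - 1) / 2) := by
  have hlo : ∀ᶠ l : ℝ in atTop, 4200 * l ^ 2 ≤ Real.exp (1 / 1000 * l) := by
    have h := isLittleO_pow_exp_pos_mul_atTop 2 (b := (1 / 1000 : ℝ)) (by norm_num)
    have h2 := h.bound (show (0 : ℝ) < 1 / 4200 by norm_num)
    filter_upwards [h2] with l hl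
    rw [Real.norm_of_nonneg (by positivity), Real.norm_of_nonneg (Real.exp_pos _).le] at hl
    linarith
  filter_upwards [hlo, eventually_ge_atTop (1000 : ℝ)] with l h1 h2
  have hsq : Real.exp (l ^ 2 / 50) ^ 2 = Real.exp (l ^ 2 / 25) := by
    rw [← Real.exp_nat_mul]
    congr 1
    push_cast
    ring
  rw [hsq]
  have hl2 : 1000 * l ≤ l ^ 2 := by nlinarith
  -- the floor
  obtain ⟨J, hJ1, hJ2⟩ : ∃ J : ℕ, (J : ℝ) ≤ 3 / 10 * l ∧ 3 / 10 * l - 1 < (J : ℝ) := by
    refine ⟨⌊3 / 10 * l⌋₊, Nat.floor_le (by positivity), ?_⟩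
    have := Nat.lt_floor_add_one (3 / 10 * l)
    linarith
  have e1 : (2.7 : ℝ) < Real.exp 1 := by
    have := Real.exp_one_gt_d9
    linarith
  have e1' : Real.exp 1 < 3 := by
    have := Real.exp_one_lt_d9
    linarith
  have e6 : (192 : ℝ) ≤ Real.exp 6 := by
    have h : Real.exp 6 = Real.exp 1 ^ 6 := by
      rw [← Real.exp_nat_mul]
      norm_num
    rw [h]
    calc (192 : ℝ) ≤ 2.7 ^ 6 := by norm_num
      _ ≤ Real.exp 1 ^ 6 := pow_le_pow_left₀ (by norm_num) e1.le 6
  have e3 : (8 : ℝ) < Real.exp 3 := by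
    have h : Real.exp 3 = Real.exp 1 ^ 3 := by
      rw [← Real.exp_nat_mul]
      norm_num
    rw [h]
    calc (8 : ℝ) < 2.7 ^ 3 := by norm_num
      _ ≤ Real.exp 1 ^ 3 := pow_le_pow_left₀ (by norm_num) e1.le 3
  refine ⟨J, 64 * Real.exp (l ^ 2 / 25) + 2050 + Real.exp l / 2, ?_, ?_, ?_, ?_, ?_⟩
  · have := Real.exp_pos (l ^ 2 / 25)
    have := Real.exp_pos l
    linarith
  · have := Real.exp_pos l
    linarith
  · have := Real.exp_pos (l ^ 2 / 25)
    linarith
  · -- `log G ≤ l ^ 2`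
    have g1 : 64 * Real.exp (l ^ 2 / 25) ≤ Real.exp (l ^ 2) / 3 := by
      have : 192 * Real.exp (l ^ 2 / 25) ≤ Real.exp (l ^ 2) := by
        calc 192 * Real.exp (l ^ 2 / 25) ≤ Real.exp 6 * Real.exp (l ^ 2 / 25) := by
              apply mul_le_mul_of_nonneg_right e6 (Real.exp_pos _).le
          _ = Real.exp (6 + l ^ 2 / 25) := by rw [Real.exp_add]
          _ ≤ Real.exp (l ^ 2) := by
              apply Real.exp_le_exp.mpr
              linarith
      linarith
    have g2 : 2050 ≤ Real.exp (l ^ 2) / 3 := by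
      have := Real.add_one_le_exp (l ^ 2)
      linarith
    have g3 : Real.exp l / 2 ≤ Real.exp (l ^ 2) / 3 := by
      have : 3 / 2 * Real.exp l ≤ Real.exp (l ^ 2) := by
        calc 3 / 2 * Real.exp l ≤ Real.exp 1 * Real.exp l := by
              apply mul_le_mul_of_nonneg_right _ (Real.exp_pos _).le
              linarith
          _ = Real.exp (1 + l) := by rw [Real.exp_add]
          _ ≤ Real.exp (l ^ 2) := by
              apply Real.exp_le_exp.mpr
              linarith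
      linarith
    have g4 : Real.log (64 * Real.exp (l ^ 2 / 25) + 2050 + Real.exp l / 2) ≤ l ^ 2 := by
      rw [Real.log_le_iff_le_exp (by positivity)]
      linarith
    have g5 : (27 : ℝ) ^ J ≤ Real.exp (999 / 1000 * l) := by
      have h27 : (27 : ℝ) ≤ Real.exp (333 / 100) := by
        have h : Real.exp (333 / 100) = Real.exp (111 / 100) ^ 3 := by
          rw [← Real.exp_nat_mul]
          norm_num
        rw [h]
        calc (27 : ℝ) = 3 ^ 3 := by norm_num
          _ ≤ _ := pow_le_pow_left₀ (by norm_num) three_le_exp 3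
      calc (27 : ℝ) ^ J ≤ Real.exp (333 / 100) ^ J := pow_le_pow_left₀ (by norm_num) h27 J
        _ = Real.exp ((J : ℝ) * (333 / 100)) := by rw [Real.exp_nat_mul]
        _ ≤ Real.exp (999 / 1000 * l) := by
            apply Real.exp_le_exp.mpr
            linarith
    have g6 : 2100 * 27 ^ J * Real.log (64 * Real.exp (l ^ 2 / 25) + 2050 + Real.exp l / 2) ≤
        2100 * 27 ^ J * l ^ 2 := by
      apply mul_le_mul_of_nonneg_left g4 (by positivity)
    refine g6.trans ?_
    calc 2100 * (27 : ℝ) ^ J * l ^ 2 = (27 : ℝ) ^ J * (4200 * l ^ 2) / 2 := by ring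
      _ ≤ Real.exp (999 / 1000 * l) * Real.exp (1 / 1000 * l) / 2 := by
          apply div_le_div_of_nonneg_right _ (by norm_num)
          apply mul_le_mul g5 h1 (by positivity) (Real.exp_pos _).le
      _ = Real.exp l / 2 := by
          rw [← Real.exp_add]
          congr 2
          ring
  · -- the large power of 3
    obtain ⟨k, hk⟩ : ∃ k : ℕ, k = J * (J - 1) / 2 := ⟨_, rfl⟩
    rw [← hk]
    have hJ1' : 1 ≤ J := by
      have : (0 : ℝ) < J := by linarith
      exact_mod_cast this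
    have hk2 : J * (J - 1) ≤ 2 * k + 1 := by omega
    have hk3 : (J : ℝ) * (J - 1) ≤ 2 * k + 1 := by
      have h := (Nat.cast_le (α := ℝ)).mpr hk2
      rw [Nat.cast_mul, Nat.cast_sub hJ1'] at h
      push_cast at h
      exact h
    have hk4 : (3 / 10 * l - 1) * (3 / 10 * l - 2) ≤ (J : ℝ) * (J - 1) := by
      apply mul_le_mul hJ2.le (by linarith) (by linarith) (by positivity)
    have hk5 : l ^ 2 / 25 + 3 ≤ k := by nlinarith
    calc 8 * Real.exp (l ^ 2 / 25) < Real.exp 3 * Real.exp (l ^ 2 / 25) := by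
          apply mul_lt_mul_of_pos_right e3 (Real.exp_pos _)
      _ = Real.exp (l ^ 2 / 25 + 3) := by rw [← Real.exp_add]; congr 1; ring
      _ ≤ Real.exp ((k : ℝ) * 1) := by
          apply Real.exp_le_exp.mpr
          linarith
      _ = Real.exp 1 ^ k := by rw [Real.exp_nat_mul]
      _ ≤ 3 ^ k := pow_le_pow_left₀ (Real.exp_pos _).le e1'.le k

/-- the choice of the parameters for large `N` -/
theorem params : ∀ᶠ N : ℕ in atTop, ∃ (J : ℕ) (G : ℝ),
    2000 ≤ G ∧ 64 * Real.exp (Real.log (Real.log N) ^ 2 / 50) ^ 2 + 50 ≤ G ∧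
    1 + Real.log N / 2 ≤ G ∧ 2100 * 27 ^ J * Real.log G ≤ Real.log N / 2 ∧
    8 * Real.exp (Real.log (Real.log N) ^ 2 / 50) ^ 2 < 3 ^ (J * (J - 1) / 2) := by
  have ht1 : Tendsto (fun N : ℕ => Real.log (N : ℝ)) atTop atTop :=
    Real.tendsto_log_atTop.comp tendsto_natCast_atTop_atTop
  have ht2 : Tendsto (fun N : ℕ => Real.log (Real.log (N : ℝ))) atTop atTop :=
    Real.tendsto_log_atTop.comp ht1
  filter_upwards [ht2.eventually params_l, ht1.eventually_gt_atTop 0] with N hN hpos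
  rw [Real.exp_log hpos] at hN
  exact hN

/-- `f(N) ≥ √N exp ((log log N)² / 50)` for all large `N` -/
theorem main : ∃ N₀ : ℕ, ∀ N : ℕ, N₀ ≤ N →
    Real.sqrt N * Real.exp (Real.log (Real.log N) ^ 2 / 50) ≤ (f N : ℝ) := by
  obtain ⟨N₀, hN₀⟩ := eventually_atTop.mp (params.and (eventually_gt_atTop 0))
  refine ⟨N₀, fun N hN => ?_⟩
  obtain ⟨⟨J, G, h1, h2, h3, h4, h5⟩, hpos⟩ := hN₀ N hN
  have hNpos : (0 : ℝ) < N := by exact_mod_cast hpos
  rw [mul_comm]
  refine core2 N (Real.sqrt N) (Real.exp (Real.log (Real.log N) ^ 2 / 50)) G (Real.log N / 2) J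
    (Real.sq_sqrt hNpos.le) ?_ ?_ h1 h2 h3 h4 h5
  · rw [Real.exp_half, Real.exp_log hNpos]
  · rw [← Real.exp_zero]
    apply Real.exp_le_exp.mpr
    positivity

end Pool.Agent.H75G
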