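import Mathlib

set_option autoImplicit false

/-
Proof sketch (helper75). Induction on A (Finset.induction_on). For insert a A:
lcm = Nat.lcm (φ a) L with L = A.lcm φ, φ a * L = gcd (φ a) L * lcm (φ a) L and
gcd (φ a) L ≤ ∏ o ∈ A, gcd (φ a) (φ o) ≤ B ^ A.card, because Nat.gcd a (Nat.lcm b c) divides
Nat.gcd a b * Nat.gcd a c (all numbers positive; prove gcd (φ a) (A.lcm φ) ∣ ∏ gcd first, by
induction). Then ∏ = φ a * ∏_A ≤ φ a * L * B^(|A|^2) ≤ lcm * B^|A| * B^(|A|^2) ≤ lcm * B^((|A|+1)^2).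
-/

namespace Pool.Agent.H75G

private theorem gcd_lcm_dvd {ι : Type*} [DecidableEq ι] (A : Finset ι) (φ : ι → ℕ) (n : ℕ) :
    Nat.gcd n (A.lcm φ) ∣ ∏ o ∈ A, Nat.gcd n (φ o) := by
  induction A using Finset.induction_on with
  | empty => simp
  | insert a A ha ih =>
    rw [Finset.lcm_insert, Finset.prod_insert ha]
    have h1 : Nat.gcd n (GCDMonoid.lcm (φ a) (A.lcm φ)) ∣ Nat.gcd n (φ a * A.lcm φ) := by
      apply Nat.gcd_dvd_gcd_of_dvd_right
      exact lcm_dvd_mul (φ a) (A.lcm φ)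
    have h2 : Nat.gcd n (φ a * A.lcm φ) ∣ Nat.gcd n (φ a) * Nat.gcd n (A.lcm φ) :=
      Nat.gcd_mul_right_dvd_mul_gcd n (φ a) (A.lcm φ)
    exact h1.trans (h2.trans (Nat.mul_dvd_mul_left _ ih))

/-- pairwise small gcds make the lcm nearly the product -/
theorem prod_le_lcm {ι : Type*} [DecidableEq ι] (A : Finset ι) (φ : ι → ℕ) (B : ℕ) (hB : 1 ≤ B)
    (hφ : ∀ o ∈ A, 1 ≤ φ o)
    (hg : ∀ o ∈ A, ∀ o' ∈ A, o ≠ o' → Nat.gcd (φ o) (φ o') ≤ B) :
    ∏ o ∈ A, φ o ≤ A.lcm φ * B ^ (A.card ^ 2) := by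
  induction A using Finset.induction_on with
  | empty => simp
  | insert a A ha ih =>
    have ih' := ih (fun o ho => hφ o (Finset.mem_insert_of_mem ho))
      (fun o ho o' ho' hne => hg o (Finset.mem_insert_of_mem ho) o' (Finset.mem_insert_of_mem ho')
        hne)
    have hpos : ∀ o ∈ A, 0 < Nat.gcd (φ a) (φ o) := by
      intro o ho
      exact Nat.gcd_pos_of_pos_left _ (hφ a (Finset.mem_insert_self a A))
    have hprodpos : 0 < ∏ o ∈ A, Nat.gcd (φ a) (φ o) := Finset.prod_pos hpos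
    have hgcd : Nat.gcd (φ a) (A.lcm φ) ≤ B ^ A.card := by
      refine (Nat.le_of_dvd hprodpos (gcd_lcm_dvd A φ (φ a))).trans ?_
      refine Finset.prod_le_pow_card A _ B ?_
      intro o ho
      refine hg a (Finset.mem_insert_self a A) o (Finset.mem_insert_of_mem ho) ?_
      rintro rfl
      exact ha ho
    have hl : (insert a A).lcm φ = Nat.lcm (φ a) (A.lcm φ) := by
      rw [Finset.lcm_insert]; rfl
    rw [Finset.prod_insert ha, hl, Finset.card_insert_of_notMem ha]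
    have hgl : Nat.gcd (φ a) (A.lcm φ) * Nat.lcm (φ a) (A.lcm φ) = φ a * A.lcm φ :=
      Nat.gcd_mul_lcm _ _
    have hexp : A.card + A.card ^ 2 ≤ (A.card + 1) ^ 2 := by nlinarith
    calc φ a * ∏ o ∈ A, φ o ≤ φ a * (A.lcm φ * B ^ (A.card ^ 2)) := Nat.mul_le_mul_left _ ih'
      _ = (φ a * A.lcm φ) * B ^ (A.card ^ 2) := by ring
      _ = (Nat.gcd (φ a) (A.lcm φ) * Nat.lcm (φ a) (A.lcm φ)) * B ^ (A.card ^ 2) := by rw [hgl]
      _ ≤ (B ^ A.card * Nat.lcm (φ a) (A.lcm φ)) * B ^ (A.card ^ 2) := by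
          apply Nat.mul_le_mul_right
          exact Nat.mul_le_mul_right _ hgcd
      _ = Nat.lcm (φ a) (A.lcm φ) * B ^ (A.card + A.card ^ 2) := by rw [pow_add]; ring
      _ ≤ Nat.lcm (φ a) (A.lcm φ) * B ^ ((A.card + 1) ^ 2) := by
          apply Nat.mul_le_mul_left
          exact Nat.pow_le_pow_right hB hexp

end Pool.Agent.H75G
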