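import Pool.Agent.H75G.Defs
import Pool.Agent.H75G.Lcm

set_option autoImplicit false

/-
Proof sketch (helper75); compare `GR.card_setA` in H5/GR/Count.lean. If the set is empty: trivial.
Otherwise fix i0 in it; c = x (i0+t) - x i0 is a nonzero integer and is the same for all members
(`x_shift`, equal residues mod 3). For i < i' in the set: every Φ o (o in supp) divides
x (i'+o) - x (i+o) = i' - i (`x_shift`), so d = (supp Φ).lcm Φ divides i' - i; and
|c| (kap (i+t) - kap (i'+t)) ≤ 2 ε with `kap_diff` gives i' - i ≤ 8 ε C^3 s / |c| ≤ 8 ε C^3 s.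
`card_sep` gives card ≤ 8 ε C^3 s / d + 1. For o ≠ o' in supp: gcd (Φ o) (Φ o') divides the nonzero
difference x (i0+o) - x (i0+o'), of absolute value ≤ H + 6 (`x_sub`, o, o' ≤ H), so gcd ≤ H + 6, and
`prod_le_lcm` (B = H + 6) gives ∏ Φ o ≤ d * (H+6)^(card^2), i.e. 1 / d ≤ (H+6)^(card^2) / ∏ Φ o.
(Φ o ≥ 1 on supp.)
-/

namespace Pool.Agent.H75G

open Pool.Agent.H5.GR

/-- a group of indices with the same data is small -/
theorem grp_card (N n0 n1 : ℕ) (s C : ℝ) (hw : Win N n0 n1 s C) (H : ℕ) (ε : ℝ) (hε : 0 ≤ ε)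
    (t r : ℕ) (y : ℝ) (Φ : Fin (H + 1) → ℕ) :
    ((grp N n0 n1 H ε t r y Φ).card : ℝ) ≤
      8 * ε * C ^ 3 * s * ((H : ℝ) + 6) ^ ((supp Φ).card ^ 2) / (∏ o ∈ supp Φ, (Φ o : ℝ)) + 1 := by
  classical
  have hs := hw.hs
  have hC := hw.hC
  have hs0 : 0 < s := by linarith
  have hC0 : 0 < C := by linarith
  have hΦ1 : ∀ o ∈ supp Φ, 1 ≤ Φ o := by
    intro o ho
    unfold supp at ho
    rw [Finset.mem_filter] at ho
    exact Nat.pos_of_ne_zero ho.2
  have hprod0 : (0 : ℝ) < ∏ o ∈ supp Φ, (Φ o : ℝ) := by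
    apply Finset.prod_pos
    intro o ho
    exact_mod_cast hΦ1 o ho
  rcases (grp N n0 n1 H ε t r y Φ).eq_empty_or_nonempty with he | ⟨i0, hi0⟩
  · rw [he, Finset.card_empty, Nat.cast_zero]
    have : 0 ≤ 8 * ε * C ^ 3 * s * ((H : ℝ) + 6) ^ ((supp Φ).card ^ 2) /
        (∏ o ∈ supp Φ, (Φ o : ℝ)) := by positivity
    linarith
  have hmem : ∀ i ∈ grp N n0 n1 H ε t r y Φ, (n0 ≤ i ∧ i < n1) ∧ (i + t < n1 ∧ (i + 1) % 3 = r ∧
      x i ≠ x (i + t) ∧ (∀ o ∈ supp Φ, Φ o ∣ x (i + (o : ℕ))) ∧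
      (∀ o ∈ supp Φ, ∀ o' ∈ supp Φ, o ≠ o' → x (i + (o : ℕ)) ≠ x (i + (o' : ℕ))) ∧
      |y - ((x (i + t) : ℝ) - x i) * kap N (i + t)| ≤ ε) := by
    intro i hi
    unfold grp at hi
    rw [Finset.mem_filter, Finset.mem_Ico] at hi
    exact hi
  set c : ℝ := (x (i0 + t) : ℝ) - x i0 with hc
  set cn : ℤ := (x (i0 + t) : ℤ) - x i0 with hcn
  have hccn : (cn : ℝ) = c := by rw [hc, hcn]; push_cast; ring
  have hcn0 : cn ≠ 0 := by
    have := (hmem i0 hi0).2.2.2.1
    intro h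
    apply this
    have : (x (i0 + t) : ℤ) = x i0 := by omega
    exact_mod_cast this.symm
  have hcabs : (1 : ℝ) ≤ |c| := by
    rw [← hccn]
    have : 1 ≤ |cn| := Int.one_le_abs hcn0
    exact_mod_cast this
  have hcc : ∀ i ∈ grp N n0 n1 H ε t r y Φ, (x (i + t) : ℝ) - x i = c := by
    intro i hi
    have h1 := (hmem i hi).2.2.1
    have h2 := (hmem i0 hi0).2.2.1
    rcases lt_trichotomy i i0 with h | h | h
    · have e1 := x_shift i i0 h (by omega) t
      have e3 : x i0 = x i + (i0 - i) := x_shift i i0 h (by omega) 0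
      rw [hc, e1, e3]
      push_cast
      ring
    · rw [h]
    · have e1 := x_shift i0 i h (by omega) t
      have e3 : x i = x i0 + (i - i0) := x_shift i0 i h (by omega) 0
      rw [hc, e1, e3]
      push_cast
      ring
  set d := (supp Φ).lcm Φ with hd
  have hd1 : 1 ≤ d := by
    apply Nat.pos_of_ne_zero
    rw [hd]
    intro h0
    rw [Finset.lcm_eq_zero_iff] at h0
    obtain ⟨o, ho, h⟩ := h0
    have := hΦ1 o ho
    omega
  have hd0 : (0 : ℝ) < d := by exact_mod_cast hd1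
  set L : ℝ := 8 * ε * C ^ 3 * s with hL
  have hL0 : 0 ≤ L := by positivity
  have hmain := card_sep (grp N n0 n1 H ε t r y Φ) d hd1 L hL0 (by
    intro i hi i' hi' hlt
    have m1 := hmem i hi
    have m2 := hmem i' hi'
    constructor
    · apply Finset.lcm_dvd
      intro o ho
      have e1 := x_shift i i' hlt (by omega) (o : ℕ)
      have h1 := m2.2.2.2.2.1 o ho
      rw [e1] at h1
      exact (Nat.dvd_add_right (m1.2.2.2.2.1 o ho)).mp h1
    · have h1 := m1.2.2.2.2.2.2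
      have h2 := m2.2.2.2.2.2.2
      rw [hcc i hi] at h1
      rw [hcc i' hi'] at h2
      have h3 := kap_diff N n0 n1 s C hw (i + t) (i' + t) (by omega) (by omega) m2.2.1
      have h4 : ((i' + t : ℕ) : ℝ) - ((i + t : ℕ) : ℝ) = (i' : ℝ) - i := by push_cast; ring
      rw [h4] at h3
      have h5 : |c * (kap N (i + t) - kap N (i' + t))| ≤ 2 * ε := by
        have : c * (kap N (i + t) - kap N (i' + t)) =
            (y - c * kap N (i' + t)) - (y - c * kap N (i + t)) := by ring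
        rw [this]
        refine (abs_sub _ _).trans ?_
        linarith
      have hd' : (0 : ℝ) < (i' : ℝ) - i := by
        have : (i : ℝ) < i' := by exact_mod_cast hlt
        linarith
      have h6 : 0 ≤ kap N (i + t) - kap N (i' + t) := by
        refine le_trans ?_ h3
        positivity
      rw [abs_mul, abs_of_nonneg h6] at h5
      have h7 : ((i' : ℝ) - i) / (4 * C ^ 3 * s) ≤ 2 * ε := by
        refine h3.trans (le_trans ?_ h5)
        exact le_mul_of_one_le_left h6 hcabs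
      rw [div_le_iff₀ (by positivity)] at h7
      rw [hL]
      linarith)
  refine hmain.trans ?_
  -- pairwise gcds
  have hgcd : ∀ o ∈ supp Φ, ∀ o' ∈ supp Φ, o ≠ o' → Nat.gcd (Φ o) (Φ o') ≤ H + 6 := by
    have key : ∀ o ∈ supp Φ, ∀ o' ∈ supp Φ, (o : ℕ) < (o' : ℕ) →
        Nat.gcd (Φ o) (Φ o') ≤ H + 6 := by
      intro o ho o' ho' hlt
      have h0 := hmem i0 hi0
      have hne : x (i0 + (o : ℕ)) ≠ x (i0 + (o' : ℕ)) :=
        h0.2.2.2.2.2.1 o ho o' ho' (by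
          intro h
          rw [h] at hlt
          exact lt_irrefl _ hlt)
      have h1 : (Nat.gcd (Φ o) (Φ o') : ℤ) ∣ (x (i0 + (o' : ℕ)) : ℤ) - x (i0 + (o : ℕ)) := by
        apply dvd_sub
        · exact_mod_cast (Nat.gcd_dvd_right _ _).trans (h0.2.2.2.2.1 o' ho')
        · exact_mod_cast (Nat.gcd_dvd_left _ _).trans (h0.2.2.2.2.1 o ho)
      have hne' : (x (i0 + (o' : ℕ)) : ℤ) - x (i0 + (o : ℕ)) ≠ 0 := by
        intro h
        apply hne
        have : (x (i0 + (o' : ℕ)) : ℤ) = x (i0 + (o : ℕ)) := by omega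
        exact_mod_cast this.symm
      have h2 := Int.le_of_dvd (abs_pos.mpr hne') ((dvd_abs _ _).mpr h1)
      have h3 := x_sub (i0 + (o : ℕ)) (i0 + (o' : ℕ)) (by omega)
      have h4 : (o' : ℕ) ≤ H := by
        have := o'.isLt
        omega
      have h5 : ((i0 + (o' : ℕ) : ℕ) : ℝ) - ((i0 + (o : ℕ) : ℕ) : ℝ) ≤ H := by
        push_cast
        have : ((o' : ℕ) : ℝ) ≤ H := by exact_mod_cast h4
        have : (0 : ℝ) ≤ ((o : ℕ) : ℝ) := Nat.cast_nonneg _
        linarith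
      have h6 : ((Nat.gcd (Φ o) (Φ o') : ℕ) : ℝ) ≤ (H : ℝ) + 6 := by
        have h7 : ((Nat.gcd (Φ o) (Φ o') : ℕ) : ℝ) ≤
            |(x (i0 + (o' : ℕ)) : ℝ) - x (i0 + (o : ℕ))| := by exact_mod_cast h2
        linarith
      exact_mod_cast h6
    intro o ho o' ho' hne
    rcases lt_trichotomy (o : ℕ) (o' : ℕ) with h | h | h
    · exact key o ho o' ho' h
    · exact absurd (Fin.ext h) hne
    · rw [Nat.gcd_comm]
      exact key o' ho' o ho h
  have hpl := prod_le_lcm (supp Φ) Φ (H + 6) (by omega) hΦ1 hgcd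
  have hplR : (∏ o ∈ supp Φ, (Φ o : ℝ)) ≤ (d : ℝ) * ((H : ℝ) + 6) ^ ((supp Φ).card ^ 2) := by
    have : ((∏ o ∈ supp Φ, Φ o : ℕ) : ℝ) ≤
        (((supp Φ).lcm Φ * (H + 6) ^ ((supp Φ).card ^ 2) : ℕ) : ℝ) := by exact_mod_cast hpl
    push_cast at this
    exact this
  have h9 : L / d ≤ L * ((H : ℝ) + 6) ^ ((supp Φ).card ^ 2) / (∏ o ∈ supp Φ, (Φ o : ℝ)) := by
    rw [div_le_div_iff₀ hd0 hprod0]
    calc L * (∏ o ∈ supp Φ, (Φ o : ℝ)) ≤ L * ((d : ℝ) * ((H : ℝ) + 6) ^ ((supp Φ).card ^ 2)) :=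
          mul_le_mul_of_nonneg_left hplR hL0
      _ = L * ((H : ℝ) + 6) ^ ((supp Φ).card ^ 2) * d := by ring
  linarith

end Pool.Agent.H75G
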