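import Pool.Agent.H75G.Defs

set_option autoImplicit false

/-
Proof sketch (helper75); compare `GR.near` in H5/GR/Near.lean. By `pair_real` (L = sum of g over
Ico (i+1) j) E * (g i * g j) = L * x j + a j * (x j - x i); divide by x i * x j = (g i v i)(g j v j):
E / (v i * v j) = L / x i + (x j - x i) * (a j / (x i * x j)).
L / x i = ∑_k g k / x i = ∑_k (x k / x i) / v k; |x k / x i - 1| ≤ (H + 6) / x i ≤ 2 (H + 6) / s ≤ 1
(x i ≥ s / 2 from hw.low; `x_sub`). Terms with v k ≤ Q: error ≤ 2 (H+6)/s each (v k ≥ 1), at most H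
of them. Terms with v k > Q: each ≤ 2 / Q, at most H of them. `kap_close`:
|a j / (x i * x j) - kap j| ≤ 8 (H + 48) / s, times |x j - x i| ≤ H + 6.
Total ≤ 2 H / Q + (2 H (H+6) + 8 (H+6) (H+48)) / s ≤ 2 H / Q + 10 (H+48)^2 / s.
(Ioo i j = Ico (i+1) j.)
-/

namespace Pool.Agent.H75G

open Pool.Agent.H5.GR

/-- the pair identity divided by `x i * x j`, the jumps with `v ≤ Q` between `i` and `j` kept -/
theorem rel (N n0 n1 : ℕ) (s C : ℝ) (hw : Win N n0 n1 s C) (H : ℕ) (Q : ℝ) (hQ : 1 ≤ Q)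
    (hHs : 2 * ((H : ℝ) + 6) ≤ s) (i j : ℕ) (hi : n0 ≤ i) (hij : i < j) (hj : j < n1)
    (hH : j ≤ i + H) :
    ∃ E : ℤ, |(E : ℝ) / ((v N i : ℝ) * v N j) -
        ∑ k ∈ (Finset.Ioo i j).filter (fun k => (v N k : ℝ) ≤ Q), 1 / (v N k : ℝ) -
        ((x j : ℝ) - x i) * kap N j| ≤ 2 * H / Q + 10 * ((H : ℝ) + 48) ^ 2 / s := by
  obtain ⟨E, hER⟩ := pair_real N i j (le_trans hw.one_le hi) hij
  have hs := hw.hs
  have hvi : (1 : ℝ) ≤ v N i := by exact_mod_cast v_pos N i
  have hvj : (1 : ℝ) ≤ v N j := by exact_mod_cast v_pos N j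
  have hxi := x_real N i
  have hxj := x_real N j
  have hxi0 : (0 : ℝ) < x i := by exact_mod_cast x_pos i
  have hxj0 : (0 : ℝ) < x j := by exact_mod_cast x_pos j
  have hxi2 : s / 2 ≤ (x i : ℝ) := by
    have h1 := hw.low
    have h2 : (n0 : ℝ) ≤ i := by exact_mod_cast hi
    have h3 : (i : ℝ) + 1 ≤ x i := by exact_mod_cast x_ge i
    linarith
  have hH0 : (0 : ℝ) ≤ H := by positivity
  have hs0 : 0 < s := by linarith
  have hQ0 : 0 < Q := by linarith
  have hdiff : |(x j : ℝ) - x i| ≤ H + 6 := by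
    have h1 := x_sub i j hij
    have h2 : (j : ℝ) ≤ i + H := by exact_mod_cast hH
    linarith
  have hkap := kap_close N n0 n1 s C hw H i j hi hij hj hH
  refine ⟨E, ?_⟩
  have hform : (E : ℝ) / ((v N i : ℝ) * v N j) =
      ∑ k ∈ Finset.Ioo i j, (g N k : ℝ) / x i +
        ((x j : ℝ) - x i) * ((a N j : ℝ) / (x i * x j)) := by
    have hIoo : Finset.Ioo i j = Finset.Ico (i + 1) j := by
      ext k; simp only [Finset.mem_Ioo, Finset.mem_Ico]; omega
    have h0 : ((∑ k ∈ Finset.Ico (i + 1) j, g N k : ℕ) : ℝ) =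
        ∑ k ∈ Finset.Ioo i j, (g N k : ℝ) := by
      rw [hIoo]; push_cast; rfl
    rw [h0] at hER
    have hgi : (1 : ℝ) ≤ g N i := by exact_mod_cast g_pos N i
    have hgj : (1 : ℝ) ≤ g N j := by exact_mod_cast g_pos N j
    have h1 : (E : ℝ) / ((v N i : ℝ) * v N j) =
        (E : ℝ) * ((g N i : ℝ) * (g N j : ℝ)) / (x i * x j) := by
      rw [hxi, hxj]
      have : (g N i : ℝ) ≠ 0 := by linarith
      have : (g N j : ℝ) ≠ 0 := by linarith
      have : (v N i : ℝ) ≠ 0 := by linarith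
      have : (v N j : ℝ) ≠ 0 := by linarith
      field_simp
    rw [h1, hER, ← Finset.sum_div]
    field_simp
  rw [hform]
  have hsplit : ∑ k ∈ (Finset.Ioo i j).filter (fun k => (v N k : ℝ) ≤ Q), 1 / (v N k : ℝ) =
      ∑ k ∈ Finset.Ioo i j, (if (v N k : ℝ) ≤ Q then 1 / (v N k : ℝ) else 0) := by
    rw [Finset.sum_filter]
  rw [hsplit]
  have hrew : ∑ k ∈ Finset.Ioo i j, (g N k : ℝ) / x i +
        ((x j : ℝ) - x i) * ((a N j : ℝ) / (x i * x j)) -
        ∑ k ∈ Finset.Ioo i j, (if (v N k : ℝ) ≤ Q then 1 / (v N k : ℝ) else 0) -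
        ((x j : ℝ) - x i) * kap N j =
      ∑ k ∈ Finset.Ioo i j, ((g N k : ℝ) / x i -
        (if (v N k : ℝ) ≤ Q then 1 / (v N k : ℝ) else 0)) +
      ((x j : ℝ) - x i) * ((a N j : ℝ) / (x i * x j) - kap N j) := by
    rw [Finset.sum_sub_distrib]; ring
  rw [hrew]
  have hterm : ∀ k ∈ Finset.Ioo i j, |(g N k : ℝ) / x i -
        (if (v N k : ℝ) ≤ Q then 1 / (v N k : ℝ) else 0)| ≤ 2 / Q + 2 * ((H : ℝ) + 6) / s := by
    intro k hk
    rw [Finset.mem_Ioo] at hk
    have hvk : (1 : ℝ) ≤ v N k := by exact_mod_cast v_pos N k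
    have hxk := x_real N k
    have hd : |(x k : ℝ) - x i| ≤ H + 6 := by
      have h1 := x_sub i k hk.1
      have h2 : (k : ℝ) ≤ i + H := by
        have : k ≤ i + H := by omega
        exact_mod_cast this
      linarith
    have hr : |(x k : ℝ) / x i - 1| ≤ 2 * ((H : ℝ) + 6) / s := by
      have h1 : (x k : ℝ) / x i - 1 = ((x k : ℝ) - x i) / x i := by field_simp
      rw [h1, abs_div, abs_of_pos hxi0, div_le_div_iff₀ hxi0 hs0]
      calc |(x k : ℝ) - x i| * s ≤ (H + 6) * s := mul_le_mul_of_nonneg_right hd hs0.le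
        _ = 2 * (H + 6) * (s / 2) := by ring
        _ ≤ 2 * (H + 6) * x i := mul_le_mul_of_nonneg_left hxi2 (by positivity)
    have hr1 : 2 * ((H : ℝ) + 6) / s ≤ 1 := by rw [div_le_one hs0]; exact hHs
    have hg : (g N k : ℝ) / x i = (x k : ℝ) / x i / v N k := by
      rw [hxk]
      have : (v N k : ℝ) ≠ 0 := by linarith
      field_simp
    have h2Q : 0 ≤ 2 / Q := by positivity
    have hHs' : 0 ≤ 2 * ((H : ℝ) + 6) / s := by positivity
    rw [hg]
    split_ifs with hc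
    · have h1 : (x k : ℝ) / x i / v N k - 1 / v N k = ((x k : ℝ) / x i - 1) / v N k := by ring
      rw [h1, abs_div, abs_of_pos (by linarith : (0:ℝ) < v N k)]
      have h2 : |(x k : ℝ) / x i - 1| / v N k ≤ |(x k : ℝ) / x i - 1| :=
        div_le_self (abs_nonneg _) hvk
      linarith
    · push Not at hc
      have h3 : (x k : ℝ) / x i ≤ 2 := by
        have := (abs_le.mp hr).2
        linarith
      have h4 : 0 ≤ (x k : ℝ) / x i := by positivity
      rw [sub_zero, abs_of_nonneg (by positivity)]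
      have h5 : (x k : ℝ) / x i / v N k ≤ 2 / Q := by
        rw [div_le_div_iff₀ (by linarith) hQ0]
        calc (x k : ℝ) / x i * Q ≤ 2 * Q := mul_le_mul_of_nonneg_right h3 hQ0.le
          _ ≤ 2 * v N k := by linarith
      linarith
  have hcard : ((Finset.Ioo i j).card : ℝ) ≤ H := by
    rw [Nat.card_Ioo]
    have : j - i - 1 ≤ H := by omega
    exact_mod_cast this
  have hsum : |∑ k ∈ Finset.Ioo i j, ((g N k : ℝ) / x i -
        (if (v N k : ℝ) ≤ Q then 1 / (v N k : ℝ) else 0))| ≤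
      H * (2 / Q + 2 * ((H : ℝ) + 6) / s) := by
    refine (Finset.abs_sum_le_sum_abs _ _).trans ?_
    refine (Finset.sum_le_sum hterm).trans ?_
    rw [Finset.sum_const, nsmul_eq_mul]
    exact mul_le_mul_of_nonneg_right hcard (by positivity)
  have hlast : |((x j : ℝ) - x i) * ((a N j : ℝ) / (x i * x j) - kap N j)| ≤
      (H + 6) * (8 * (H + 48) / s) := by
    rw [abs_mul]
    exact mul_le_mul hdiff hkap (abs_nonneg _) (by positivity)
  refine (abs_add_le _ _).trans ?_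
  refine (add_le_add hsum hlast).trans ?_
  have hfin : (H : ℝ) * (2 / Q + 2 * ((H : ℝ) + 6) / s) + (H + 6) * (8 * (H + 48) / s) =
      2 * H / Q + (2 * H * (H + 6) + 8 * (H + 6) * (H + 48)) / s := by
    field_simp
    ring
  rw [hfin]
  have hq : (2 * (H : ℝ) * (H + 6) + 8 * (H + 6) * (H + 48)) / s ≤ 10 * ((H : ℝ) + 48) ^ 2 / s := by
    apply div_le_div_of_nonneg_right _ hs0.le
    nlinarith
  linarith

end Pool.Agent.H75G
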