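import Pool.Agent.H75G.Defs

set_option autoImplicit false

/-
Proof sketch (helper75). Let S = 1 + log Qn ≥ 1, y = 1 / (H * S) ∈ (0, 1]. For v : ℕ put
w v = if v = 0 then 1 else y / v. For every Φ: ∏_{o : Fin (H+1)} w (Φ o) = y^|supp Φ| / ∏_{supp} Φ o,
so for |supp Φ| ≤ r: (∏_{supp} Φ o)⁻¹ ≤ (y⁻¹)^r * ∏_o w (Φ o) (as 0 < y ≤ 1). Enlarge the sum to the
whole piFinset and use `Finset.prod_univ_sum` (product of sums = sum over piFinset of products):
∑_Φ ∏_o w (Φ o) = (∑_{v ∈ range (Qn+1)} w v)^(H+1) = (1 + y * harmonic)^(H+1) ≤ (1 + y S)^(H+1)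
= (1 + 1/H)^(H+1) ≤ exp ((H+1)/H) ≤ exp 2 ≤ 8 (∑_{v=1}^{Qn} 1/v ≤ 1 + log Qn:
`harmonic_le_one_add_log` or similar in Mathlib). (y⁻¹)^r = (H S)^r.
-/

namespace Pool.Agent.H75G

/-- the weighted number of patterns with at most `r` nonzero entries -/
theorem sum_inv (H Qn r : ℕ) (hH : 1 ≤ H) (hQ : 1 ≤ Qn) :
    ∑ Φ ∈ (Fintype.piFinset (fun _ : Fin (H + 1) => Finset.range (Qn + 1))).filter
        (fun Φ => (supp Φ).card ≤ r), (∏ o ∈ supp Φ, (Φ o : ℝ))⁻¹ ≤
      8 * ((H : ℝ) * (1 + Real.log Qn)) ^ r := by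
  have hH' : (1 : ℝ) ≤ H := by exact_mod_cast hH
  have hlog : 0 ≤ Real.log (Qn : ℝ) := Real.log_natCast_nonneg Qn
  set S : ℝ := 1 + Real.log Qn with hS
  have hS1 : 1 ≤ S := by rw [hS]; linarith
  have hHS : 1 ≤ (H : ℝ) * S := by nlinarith
  have hHS0 : 0 < (H : ℝ) * S := by linarith
  set y : ℝ := ((H : ℝ) * S)⁻¹ with hy
  have hy0 : 0 < y := inv_pos.mpr hHS0
  set w : ℕ → ℝ := fun v => if v ≠ 0 then y / v else 1 with hw
  have hw0 : ∀ v, 0 ≤ w v := by
    intro v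
    simp only [hw]
    split_ifs
    · positivity
    · norm_num
  -- the pointwise bound
  have key : ∀ Φ : Fin (H + 1) → ℕ, (supp Φ).card ≤ r →
      (∏ o ∈ supp Φ, (Φ o : ℝ))⁻¹ ≤ ((H : ℝ) * S) ^ r * ∏ o, w (Φ o) := by
    intro Φ hΦ
    have h1 : ∏ o, w (Φ o) = y ^ (supp Φ).card * (∏ o ∈ supp Φ, (Φ o : ℝ))⁻¹ := by
      have : ∏ o, w (Φ o) = ∏ o ∈ supp Φ, (y / (Φ o : ℝ)) := by
        unfold supp
        rw [Finset.prod_filter]
      rw [this, Finset.prod_div_distrib, Finset.prod_const, div_eq_mul_inv]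
    rw [h1, ← mul_assoc]
    have h2 : 1 ≤ ((H : ℝ) * S) ^ r * y ^ (supp Φ).card := by
      rw [hy, inv_pow, ← div_eq_mul_inv, le_div_iff₀ (pow_pos hHS0 _), one_mul]
      exact pow_le_pow_right₀ hHS hΦ
    have h3 : 0 ≤ (∏ o ∈ supp Φ, (Φ o : ℝ))⁻¹ :=
      inv_nonneg.mpr (Finset.prod_nonneg fun o _ => Nat.cast_nonneg _)
    nlinarith
  -- the one variable sum
  have hsum : ∑ v ∈ Finset.range (Qn + 1), w v ≤ 1 + 1 / (H : ℝ) := by
    rw [Finset.sum_range_succ']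
    have h0 : w 0 = 1 := by simp [hw]
    have h1 : ∀ k ∈ Finset.range Qn, w (k + 1) = y * ((k + 1 : ℕ) : ℝ)⁻¹ := by
      intro k _
      simp only [hw]
      rw [if_pos (Nat.succ_ne_zero k), div_eq_mul_inv]
    rw [h0, Finset.sum_congr rfl h1, ← Finset.mul_sum]
    have h2 : ∑ k ∈ Finset.range Qn, ((k + 1 : ℕ) : ℝ)⁻¹ = ((harmonic Qn : ℚ) : ℝ) := by
      unfold harmonic
      push_cast
      rfl
    have h3 : ((harmonic Qn : ℚ) : ℝ) ≤ S := harmonic_le_one_add_log Qn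
    have h4 : y * S = 1 / (H : ℝ) := by
      rw [hy]
      have : (H : ℝ) ≠ 0 := by positivity
      have : S ≠ 0 := by positivity
      field_simp
    rw [h2]
    nlinarith [mul_le_mul_of_nonneg_left h3 hy0.le]
  have hsum0 : 0 ≤ ∑ v ∈ Finset.range (Qn + 1), w v := Finset.sum_nonneg fun v _ => hw0 v
  have hprod : ∑ Φ ∈ Fintype.piFinset (fun _ : Fin (H + 1) => Finset.range (Qn + 1)),
      ∏ o, w (Φ o) = (∑ v ∈ Finset.range (Qn + 1), w v) ^ (H + 1) := by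
    have := Finset.prod_univ_sum (fun _ : Fin (H + 1) => Finset.range (Qn + 1))
      (fun (_ : Fin (H + 1)) (v : ℕ) => w v)
    rw [← this, Finset.prod_const, Finset.card_univ, Fintype.card_fin]
  have hpow : (∑ v ∈ Finset.range (Qn + 1), w v) ^ (H + 1) ≤ 8 := by
    calc (∑ v ∈ Finset.range (Qn + 1), w v) ^ (H + 1)
        ≤ (1 + 1 / (H : ℝ)) ^ (H + 1) := pow_le_pow_left₀ hsum0 hsum _
      _ ≤ (Real.exp (1 / (H : ℝ))) ^ (H + 1) := by
          apply pow_le_pow_left₀ (by positivity)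
          have := Real.add_one_le_exp (1 / (H : ℝ))
          linarith
      _ = Real.exp (((H + 1 : ℕ) : ℝ) * (1 / (H : ℝ))) := by rw [← Real.exp_nat_mul]
      _ ≤ Real.exp 2 := by
          apply Real.exp_le_exp.mpr
          push_cast
          rw [mul_one_div, div_le_iff₀ (by linarith)]
          linarith
      _ ≤ 8 := by
          have h1 : Real.exp 2 = Real.exp 1 * Real.exp 1 := by
            rw [← Real.exp_add]; norm_num
          have h2 := Real.exp_one_lt_d9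
          have h3 := Real.exp_pos 1
          rw [h1]
          nlinarith
  calc ∑ Φ ∈ (Fintype.piFinset (fun _ : Fin (H + 1) => Finset.range (Qn + 1))).filter
        (fun Φ => (supp Φ).card ≤ r), (∏ o ∈ supp Φ, (Φ o : ℝ))⁻¹
      ≤ ∑ Φ ∈ (Fintype.piFinset (fun _ : Fin (H + 1) => Finset.range (Qn + 1))).filter
        (fun Φ => (supp Φ).card ≤ r), ((H : ℝ) * S) ^ r * ∏ o, w (Φ o) := by
        apply Finset.sum_le_sum
        intro Φ hΦ
        exact key Φ (Finset.mem_filter.mp hΦ).2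
    _ ≤ ∑ Φ ∈ Fintype.piFinset (fun _ : Fin (H + 1) => Finset.range (Qn + 1)),
        ((H : ℝ) * S) ^ r * ∏ o, w (Φ o) := by
        apply Finset.sum_le_sum_of_subset_of_nonneg (Finset.filter_subset _ _)
        intro Φ _ _
        exact mul_nonneg (by positivity) (Finset.prod_nonneg fun o _ => hw0 _)
    _ = ((H : ℝ) * S) ^ r * (∑ v ∈ Finset.range (Qn + 1), w v) ^ (H + 1) := by
        rw [← Finset.mul_sum, hprod]
    _ ≤ ((H : ℝ) * S) ^ r * 8 := by
        apply mul_le_mul_of_nonneg_left hpow (by positivity)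
    _ = 8 * ((H : ℝ) * S) ^ r := by ring

end Pool.Agent.H75G
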