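import Pool.Agent.H75G.Dup
import Pool.Agent.H75G.Rel
import Pool.Agent.H75G.Group
import Pool.Agent.H75G.SumInv

set_option autoImplicit false

/-
Proof sketch (helper75); compare `GR.rare_card` in H5/GR/Rare.lean. Qn = ⌊Q⌋₊.
For i in rareK with j: t = j - i ∈ Icc 1 H, r = (i+1) % 3, Φ o = if (o ≤ t and v (i+o) ≤ Q) then v (i+o)
else 0. Then Φ ∈ piFinset (range (Qn+1)), supp Φ ⊆ {0, t} ∪ (image of the ≤ h indices between), so
card ≤ h + 2; Φ 0 = v i, Φ t = v j (both ≤ P ≤ Q). All v(i+o) divide x (i+o) (`v_dvd_x`), and for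
o < o' in supp x (i+o) ≠ x (i+o') by `v_dup`: otherwise s/2 ≤ x (i+o) ≤ 5 Q^2 contradicts 10 Q^2 < s.
`rel` gives E with |E/(Φ 0 Φ t) - ∑_{other o in supp} 1/Φ o - (x j - x i) kap j| ≤ ε, so
i ∈ grp ... ε t r y Φ with y = E/(Φ 0 Φ t) - ∑ (the sum over Ioo i j filtered = sum over supp minus
{0,t}; it is convenient to define y from Φ and E by one formula). |E| ≤ Φ 0 Φ t (H + 4 (H+6) + 1)
≤ 5 (H+6) P^2 =: B' (`kap_le`: 0 ≤ kap ≤ 4; `x_sub`), so E ∈ Icc (-B) B, B = ⌊5 (H+6) P^2⌋.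
So card ≤ ∑_t ∑_r ∑_Φ ∑_E (card grp) ≤ H * 3 * (2B+1) * ∑_Φ (Q1 / ∏ + 1) with
Q1 = 8 ε C^3 s (H+6)^((h+2)^2) (`grp_card`, |supp| ≤ h+2), and 1 ≤ Q^(h+2) / ∏_{supp} Φ o (values ≤ Q).
Hence ∑_Φ ≤ (Q1 + Q^(h+2)) * ∑_Φ (∏)⁻¹ ≤ (Q1 + Q^(h+2)) * 8 (H (1 + log Qn))^(h+2) (`sum_inv`),
log Qn ≤ log Q.
-/

namespace Pool.Agent.H75G

open Pool.Agent.H5.GR

/-- the pattern of an index `i` -/
noncomputable def RareCard.pat (N H : ℕ) (Q : ℝ) (i t : ℕ) : Fin (H + 1) → ℕ := by
  classical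
  exact fun o => if (o : ℕ) ≤ t ∧ (v N (i + (o : ℕ)) : ℝ) ≤ Q then v N (i + (o : ℕ)) else 0

theorem RareCard.mem_supp_pat (N H : ℕ) (Q : ℝ) (i t : ℕ) (o : Fin (H + 1)) :
    o ∈ supp (RareCard.pat N H Q i t) ↔ (o : ℕ) ≤ t ∧ (v N (i + (o : ℕ)) : ℝ) ≤ Q := by
  unfold supp RareCard.pat
  rw [Finset.mem_filter]
  constructor
  · rintro ⟨_, h⟩
    by_contra hc
    exact h (if_neg hc)
  · intro h
    refine ⟨Finset.mem_univ _, ?_⟩
    rw [if_pos h]
    have := v_pos N (i + (o : ℕ))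
    omega

theorem RareCard.pat_of_mem (N H : ℕ) (Q : ℝ) (i t : ℕ) (o : Fin (H + 1))
    (h : o ∈ supp (RareCard.pat N H Q i t)) : RareCard.pat N H Q i t o = v N (i + (o : ℕ)) := by
  rw [RareCard.mem_supp_pat] at h
  unfold RareCard.pat
  rw [if_pos h]

/-- the real number attached to `E`, `t`, `Φ` -/
noncomputable def RareCard.yy (H : ℕ) (t : Fin (H + 1)) (Φ : Fin (H + 1) → ℕ) (E : ℤ) : ℝ :=
  (E : ℝ) / ((Φ 0 : ℝ) * Φ t) - ∑ o ∈ ((supp Φ).erase 0).erase t, 1 / (Φ o : ℝ)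

/-- the number of rare pairs -/
theorem rareK_card (N n0 n1 : ℕ) (s C : ℝ) (hw : Win N n0 n1 s C) (H h : ℕ) (hH : 1 ≤ H)
    (P Q : ℝ) (hP : 1 ≤ P) (hPQ : P ≤ Q) (hQs : 10 * Q ^ 2 < s) (hHs : 2 * ((H : ℝ) + 6) ≤ s)
    (ε : ℝ) (hε : ε = 2 * H / Q + 10 * ((H : ℝ) + 48) ^ 2 / s) (hε1 : ε ≤ 1) :
    ((rareK N n0 n1 H h P Q).card : ℝ) ≤
      3 * H * (10 * ((H : ℝ) + 6) * P ^ 2 + 1) *
        ((8 * ε * C ^ 3 * s * ((H : ℝ) + 6) ^ ((h + 2) ^ 2) + Q ^ (h + 2)) *
          (8 * ((H : ℝ) * (1 + Real.log Q)) ^ (h + 2))) := by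
  classical
  have hs := hw.hs
  have hC := hw.hC
  have hs0 : 0 < s := by linarith
  have hC0 : 0 < C := by linarith
  have hH0 : (0 : ℝ) ≤ H := by positivity
  have hQ1 : 1 ≤ Q := hP.trans hPQ
  have hQ0 : 0 < Q := by linarith
  have hε0 : 0 ≤ ε := by rw [hε]; positivity
  set Qn := ⌊Q⌋₊ with hQn
  have hQn1 : 1 ≤ Qn := Nat.le_floor (by simpa using hQ1)
  have hQnle : (Qn : ℝ) ≤ Q := Nat.floor_le hQ0.le
  have hB0 : 0 ≤ 5 * ((H : ℝ) + 6) * P ^ 2 := by positivity
  set B : ℕ := ⌊5 * ((H : ℝ) + 6) * P ^ 2⌋₊ with hB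
  have hBle : (B : ℝ) ≤ 5 * ((H : ℝ) + 6) * P ^ 2 := Nat.floor_le hB0
  set T : Finset (Fin (H + 1)) := Finset.univ.filter (fun t => t ≠ 0) with hT
  set PP : Finset (Fin (H + 1) → ℕ) :=
    (Fintype.piFinset (fun _ : Fin (H + 1) => Finset.range (Qn + 1))).filter
      (fun Φ => (supp Φ).card ≤ h + 2) with hPP
  set EE : Finset ℤ := Finset.Icc (-(B : ℤ)) (B : ℤ) with hEE
  set I : Finset (Fin (H + 1) × ℕ × (Fin (H + 1) → ℕ) × ℤ) :=
    T ×ˢ (Finset.range 3) ×ˢ PP ×ˢ EE with hI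
  set F : Fin (H + 1) × ℕ × (Fin (H + 1) → ℕ) × ℤ → Finset ℕ := fun p =>
    grp N n0 n1 H ε (p.1 : ℕ) p.2.1 (RareCard.yy H p.1 p.2.2.1 p.2.2.2) p.2.2.1 with hF
  have hcover : rareK N n0 n1 H h P Q ⊆ I.biUnion F := by
    intro i hi
    unfold rareK at hi
    rw [Finset.mem_filter, Finset.mem_Ico] at hi
    obtain ⟨⟨hi0, hi1⟩, j, hij, hj1, hjH, hvi, hvj, hcard⟩ := hi
    set Φ := RareCard.pat N H Q i (j - i) with hΦ
    have htlt : j - i < H + 1 := by omega
    set t : Fin (H + 1) := ⟨j - i, htlt⟩ with ht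
    have htv : (t : ℕ) = j - i := rfl
    have hitj : i + (t : ℕ) = j := by rw [htv]; omega
    have ht0 : t ≠ 0 := by
      intro h0
      have : (t : ℕ) = 0 := by rw [h0]; rfl
      omega
    have h0v : ((0 : Fin (H + 1)) : ℕ) = 0 := rfl
    have h0mem : (0 : Fin (H + 1)) ∈ supp Φ := by
      rw [hΦ, RareCard.mem_supp_pat]
      refine ⟨by rw [h0v]; omega, ?_⟩
      rw [h0v, Nat.add_zero]
      exact hvi.trans hPQ
    have htmem : t ∈ supp Φ := by
      rw [hΦ, RareCard.mem_supp_pat]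
      refine ⟨le_of_eq htv, ?_⟩
      rw [hitj]
      exact hvj.trans hPQ
    have hΦ0 : Φ 0 = v N i := by
      rw [hΦ, RareCard.pat_of_mem N H Q i (j - i) 0 h0mem, h0v, Nat.add_zero]
    have hΦt : Φ t = v N j := by
      rw [hΦ, RareCard.pat_of_mem N H Q i (j - i) t htmem, hitj]
    -- the sum
    have hsumeq : ∑ o ∈ ((supp Φ).erase 0).erase t, 1 / (Φ o : ℝ) =
        ∑ k ∈ (Finset.Ioo i j).filter (fun k => (v N k : ℝ) ≤ Q), 1 / (v N k : ℝ) := by
      apply Finset.sum_bij (fun (o : Fin (H + 1)) _ => i + (o : ℕ))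
      · intro o ho
        rw [Finset.mem_erase, Finset.mem_erase] at ho
        obtain ⟨h1, h2, h3⟩ := ho
        rw [hΦ, RareCard.mem_supp_pat] at h3
        have h4 : (o : ℕ) ≠ 0 := fun hc => h2 (Fin.ext hc)
        have h5 : (o : ℕ) ≠ j - i := fun hc => h1 (Fin.ext hc)
        rw [Finset.mem_filter, Finset.mem_Ioo]
        exact ⟨⟨by omega, by omega⟩, h3.2⟩
      · intro o _ o' _ hoo
        apply Fin.ext
        have : i + (o : ℕ) = i + (o' : ℕ) := hoo
        omega
      · intro k hk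
        rw [Finset.mem_filter, Finset.mem_Ioo] at hk
        obtain ⟨⟨h1, h2⟩, h3⟩ := hk
        refine ⟨⟨k - i, by omega⟩, ?_, ?_⟩
        · rw [Finset.mem_erase, Finset.mem_erase, hΦ, RareCard.mem_supp_pat]
          have hki : i + (k - i) = k := by omega
          refine ⟨?_, ?_, ?_, ?_⟩
          · intro hc
            have := congrArg Fin.val hc
            simp only [ht] at this
            omega
          · intro hc
            have := congrArg Fin.val hc
            rw [h0v] at this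
            simp only at this
            omega
          · simp only
            omega
          · simp only [hki]
            exact h3
        · simp only
          omega
      · intro o ho
        rw [Finset.mem_erase, Finset.mem_erase] at ho
        rw [hΦ, RareCard.pat_of_mem N H Q i (j - i) o ho.2.2]
    have hcardsupp : (supp Φ).card ≤ h + 2 := by
      have h1 : (((supp Φ).erase 0).erase t).card ≤ h := by
        refine le_trans ?_ hcard
        apply Finset.card_le_card_of_injOn (fun (o : Fin (H + 1)) => i + (o : ℕ))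
        · intro o ho
          rw [Finset.mem_coe, Finset.mem_erase, Finset.mem_erase] at ho
          obtain ⟨h1, h2, h3⟩ := ho
          rw [hΦ, RareCard.mem_supp_pat] at h3
          have h4 : (o : ℕ) ≠ 0 := fun hc => h2 (Fin.ext hc)
          have h5 : (o : ℕ) ≠ j - i := fun hc => h1 (Fin.ext hc)
          rw [Finset.mem_coe, Finset.mem_filter, Finset.mem_Ioo]
          refine ⟨⟨?_, ?_⟩, h3.2⟩
          · change i < i + (o : ℕ)
            omega
          · change i + (o : ℕ) < j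
            omega
        · intro o _ o' _ hoo
          apply Fin.ext
          have : i + (o : ℕ) = i + (o' : ℕ) := hoo
          omega
      have h2 : ((supp Φ).erase 0).card = (supp Φ).card - 1 := Finset.card_erase_of_mem h0mem
      have h3 : t ∈ (supp Φ).erase 0 := Finset.mem_erase.mpr ⟨ht0, htmem⟩
      have h4 : (((supp Φ).erase 0).erase t).card = ((supp Φ).erase 0).card - 1 :=
        Finset.card_erase_of_mem h3
      omega
    obtain ⟨E, hE⟩ := rel N n0 n1 s C hw H Q hQ1 hHs i j hi0 hij hj1 hjH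
    rw [← hε] at hE
    have hxne : ∀ o ∈ supp Φ, ∀ o' ∈ supp Φ, o ≠ o' → x (i + (o : ℕ)) ≠ x (i + (o' : ℕ)) := by
      have key : ∀ o ∈ supp Φ, ∀ o' ∈ supp Φ, (o : ℕ) < (o' : ℕ) →
          x (i + (o : ℕ)) ≠ x (i + (o' : ℕ)) := by
        intro o ho o' ho' hlt heq
        rw [hΦ, RareCard.mem_supp_pat] at ho ho'
        have h1 := v_dup N (i + (o : ℕ)) (i + (o' : ℕ))
          (le_trans (le_trans hw.one_le hi0) (Nat.le_add_right _ _)) (by omega) heq
        have h2 : (x (i + (o : ℕ)) : ℝ) ≤ 5 * ((v N (i + (o : ℕ)) : ℝ) * v N (i + (o' : ℕ))) := by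
          exact_mod_cast h1
        have h3 : (v N (i + (o : ℕ)) : ℝ) * v N (i + (o' : ℕ)) ≤ Q * Q :=
          mul_le_mul ho.2 ho'.2 (Nat.cast_nonneg _) hQ0.le
        have h4 : ((i + (o : ℕ) : ℕ) : ℝ) + 1 ≤ x (i + (o : ℕ)) := by
          exact_mod_cast x_ge (i + (o : ℕ))
        have h5 : (n0 : ℝ) ≤ ((i + (o : ℕ) : ℕ) : ℝ) := by
          have : n0 ≤ i + (o : ℕ) := by omega
          exact_mod_cast this
        have h6 := hw.low
        nlinarith
      intro o ho o' ho' hne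
      rcases lt_trichotomy (o : ℕ) (o' : ℕ) with hlt | heq | hgt
      · exact key o ho o' ho' hlt
      · exact absurd (Fin.ext heq) hne
      · exact fun hc => key o' ho' o ho hgt hc.symm
    have hxij : x i ≠ x (i + (t : ℕ)) := by
      have := hxne 0 h0mem t htmem (fun hc => ht0 hc.symm)
      rw [h0v, Nat.add_zero] at this
      exact this
    have hviR : (1 : ℝ) ≤ v N i := by exact_mod_cast v_pos N i
    have hvjR : (1 : ℝ) ≤ v N j := by exact_mod_cast v_pos N j
    rw [Finset.mem_biUnion]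
    refine ⟨(t, (i + 1) % 3, Φ, E), ?_, ?_⟩
    · rw [hI, Finset.mem_product, Finset.mem_product, Finset.mem_product]
      refine ⟨?_, ?_, ?_, ?_⟩
      · rw [hT, Finset.mem_filter]
        exact ⟨Finset.mem_univ _, ht0⟩
      · exact Finset.mem_range.mpr (Nat.mod_lt _ (by norm_num))
      · rw [hPP, Finset.mem_filter, Fintype.mem_piFinset]
        refine ⟨?_, hcardsupp⟩
        intro o
        rw [Finset.mem_range]
        by_cases ho : o ∈ supp Φ
        · have h1 : Φ o = v N (i + (o : ℕ)) := RareCard.pat_of_mem N H Q i (j - i) o ho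
          have h2 := (RareCard.mem_supp_pat N H Q i (j - i) o).mp ho
          simp only
          rw [h1]
          have h3 : v N (i + (o : ℕ)) ≤ Qn := Nat.le_floor h2.2
          omega
        · have h1 : Φ o = 0 := by
            by_contra hc
            exact ho (by unfold supp; exact Finset.mem_filter.mpr ⟨Finset.mem_univ _, hc⟩)
          simp only
          rw [h1]
          omega
      · -- bound of E
        have hk := kap_le N n0 n1 s C hw j (by omega) hj1
        have hc := x_sub i j hij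
        have hjH' : (j : ℝ) ≤ i + H := by exact_mod_cast hjH
        have h1 : |((x j : ℝ) - x i) * kap N j| ≤ (H + 6) * 4 := by
          rw [abs_mul, abs_of_nonneg hk.1]
          exact mul_le_mul (by linarith) hk.2 hk.1 (by positivity)
        have h2 : |∑ k ∈ (Finset.Ioo i j).filter (fun k => (v N k : ℝ) ≤ Q), 1 / (v N k : ℝ)| ≤
            H := by
          rw [abs_of_nonneg (Finset.sum_nonneg fun k _ => by positivity)]
          calc ∑ k ∈ (Finset.Ioo i j).filter (fun k => (v N k : ℝ) ≤ Q), 1 / (v N k : ℝ)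
              ≤ ∑ _k ∈ (Finset.Ioo i j).filter (fun k => (v N k : ℝ) ≤ Q), (1 : ℝ) := by
                apply Finset.sum_le_sum
                intro k _
                have : (1 : ℝ) ≤ v N k := by exact_mod_cast v_pos N k
                rw [div_le_one (by linarith)]
                exact this
            _ = (((Finset.Ioo i j).filter (fun k => (v N k : ℝ) ≤ Q)).card : ℝ) := by
                rw [Finset.sum_const, nsmul_eq_mul, mul_one]
            _ ≤ ((Finset.Ioo i j).card : ℝ) := by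
                exact_mod_cast Finset.card_filter_le _ _
            _ ≤ H := by
                rw [Nat.card_Ioo]
                have : j - i - 1 ≤ H := by omega
                exact_mod_cast this
        have h3 : |(E : ℝ) / ((v N i : ℝ) * v N j)| ≤ 5 * (H + 6) := by
          have e1 := abs_le.mp hE
          have e2 := abs_le.mp h1
          have e3 := abs_le.mp h2
          rw [abs_le]
          constructor
          · linarith [e1.1, e2.1, e3.1]
          · linarith [e1.2, e2.2, e3.2]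
        have hvv0 : (0 : ℝ) < (v N i : ℝ) * v N j := by positivity
        have h4 : |(E : ℝ)| ≤ 5 * (H + 6) * ((v N i : ℝ) * v N j) := by
          rw [abs_div, abs_of_pos hvv0, div_le_iff₀ hvv0] at h3
          exact h3
        have h5 : (v N i : ℝ) * v N j ≤ P ^ 2 := by
          rw [sq]
          exact mul_le_mul hvi hvj (by positivity) (by linarith)
        have h6 : |(E : ℝ)| ≤ 5 * (H + 6) * P ^ 2 :=
          h4.trans (mul_le_mul_of_nonneg_left h5 (by positivity))
        have h7 : E.natAbs ≤ B := by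
          apply Nat.le_floor
          rw [Nat.cast_natAbs]
          push_cast
          exact h6
        rw [hEE, Finset.mem_Icc]
        change -(B : ℤ) ≤ E ∧ E ≤ (B : ℤ)
        omega
    · rw [hF]
      simp only
      unfold grp
      rw [Finset.mem_filter, Finset.mem_Ico]
      refine ⟨⟨hi0, hi1⟩, by rw [hitj]; exact hj1, rfl, hxij, ?_, hxne, ?_⟩
      · intro o ho
        rw [hΦ, RareCard.pat_of_mem N H Q i (j - i) o ho]
        exact v_dvd_x N _
      · unfold RareCard.yy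
        rw [hsumeq, hΦ0, hΦt, hitj]
        exact hE
  have hcard1 : ((rareK N n0 n1 H h P Q).card : ℝ) ≤ ∑ p ∈ I, ((F p).card : ℝ) := by
    have h1 := (Finset.card_le_card hcover).trans Finset.card_biUnion_le
    exact_mod_cast h1
  refine hcard1.trans ?_
  set Q1 : ℝ := 8 * ε * C ^ 3 * s * ((H : ℝ) + 6) ^ ((h + 2) ^ 2) with hQ1'
  have hQ10 : 0 ≤ Q1 := by positivity
  have hsingle : ∀ p ∈ I, ((F p).card : ℝ) ≤
      (Q1 + Q ^ (h + 2)) * (∏ o ∈ supp p.2.2.1, (p.2.2.1 o : ℝ))⁻¹ := by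
    rintro ⟨t, r, Φ, E⟩ hp
    rw [hI, Finset.mem_product, Finset.mem_product, Finset.mem_product] at hp
    obtain ⟨_, _, hΦ, _⟩ := hp
    simp only at hΦ
    rw [hPP, Finset.mem_filter, Fintype.mem_piFinset] at hΦ
    obtain ⟨hΦ1, hΦ2⟩ := hΦ
    simp only [hF]
    refine (grp_card N n0 n1 s C hw H ε hε0 (t : ℕ) r (RareCard.yy H t Φ E) Φ).trans ?_
    have hpos : ∀ o ∈ supp Φ, (1 : ℝ) ≤ Φ o := by
      intro o ho
      unfold supp at ho
      rw [Finset.mem_filter] at ho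
      exact_mod_cast Nat.pos_of_ne_zero ho.2
    have hprod0 : (0 : ℝ) < ∏ o ∈ supp Φ, (Φ o : ℝ) :=
      Finset.prod_pos fun o ho => by linarith [hpos o ho]
    have hprodle : ∏ o ∈ supp Φ, (Φ o : ℝ) ≤ Q ^ (h + 2) := by
      calc ∏ o ∈ supp Φ, (Φ o : ℝ) ≤ ∏ _o ∈ supp Φ, Q := by
            apply Finset.prod_le_prod
            · intro o ho
              linarith [hpos o ho]
            · intro o _
              have h1 := Finset.mem_range.mp (hΦ1 o)
              have h2 : (Φ o : ℝ) ≤ Qn := by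
                have : Φ o ≤ Qn := by omega
                exact_mod_cast this
              linarith
        _ = Q ^ (supp Φ).card := by rw [Finset.prod_const]
        _ ≤ Q ^ (h + 2) := pow_le_pow_right₀ hQ1 hΦ2
    have h1 : ((H : ℝ) + 6) ^ ((supp Φ).card ^ 2) ≤ ((H : ℝ) + 6) ^ ((h + 2) ^ 2) := by
      apply pow_le_pow_right₀ (by linarith)
      exact Nat.pow_le_pow_left hΦ2 2
    have h2 : 8 * ε * C ^ 3 * s * ((H : ℝ) + 6) ^ ((supp Φ).card ^ 2) ≤ Q1 := by
      rw [hQ1']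
      exact mul_le_mul_of_nonneg_left h1 (by positivity)
    have h3 : (1 : ℝ) ≤ Q ^ (h + 2) * (∏ o ∈ supp Φ, (Φ o : ℝ))⁻¹ := by
      rw [← div_eq_mul_inv, le_div_iff₀ hprod0, one_mul]
      exact hprodle
    have h4 : 8 * ε * C ^ 3 * s * ((H : ℝ) + 6) ^ ((supp Φ).card ^ 2) /
        (∏ o ∈ supp Φ, (Φ o : ℝ)) ≤ Q1 * (∏ o ∈ supp Φ, (Φ o : ℝ))⁻¹ := by
      rw [div_eq_mul_inv]
      exact mul_le_mul_of_nonneg_right h2 (inv_nonneg.mpr hprod0.le)
    rw [add_mul]
    exact add_le_add h4 h3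
  refine (Finset.sum_le_sum hsingle).trans ?_
  have hTcard : T.card = H := by
    rw [hT, Finset.filter_ne' Finset.univ (0 : Fin (H + 1)), Finset.card_erase_of_mem (Finset.mem_univ _),
      Finset.card_univ, Fintype.card_fin]
    omega
  have hEcard : (EE.card : ℝ) ≤ 10 * ((H : ℝ) + 6) * P ^ 2 + 1 := by
    rw [hEE, Int.card_Icc]
    have h1 : ((B : ℤ) + 1 - -(B : ℤ)).toNat = 2 * B + 1 := by omega
    rw [h1]
    push_cast
    linarith
  have hsum : ∑ p ∈ I, (Q1 + Q ^ (h + 2)) * (∏ o ∈ supp p.2.2.1, (p.2.2.1 o : ℝ))⁻¹ =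
      H * (3 * ((EE.card : ℝ) * ((Q1 + Q ^ (h + 2)) *
        ∑ Φ ∈ PP, (∏ o ∈ supp Φ, (Φ o : ℝ))⁻¹))) := by
    rw [hI, Finset.sum_product]
    simp only
    rw [Finset.sum_const, hTcard, nsmul_eq_mul, Finset.sum_product]
    simp only
    rw [Finset.sum_const, Finset.card_range, nsmul_eq_mul, Finset.sum_product]
    simp only [Finset.sum_const, nsmul_eq_mul]
    rw [← Finset.mul_sum, ← Finset.mul_sum]
    push_cast
    ring
  rw [hsum]
  have hinv : ∑ Φ ∈ PP, (∏ o ∈ supp Φ, (Φ o : ℝ))⁻¹ ≤ 8 * ((H : ℝ) * (1 + Real.log Q)) ^ (h + 2) := by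
    have h1 := sum_inv H Qn (h + 2) hH hQn1
    rw [← hPP] at h1
    refine h1.trans ?_
    have hlog : Real.log (Qn : ℝ) ≤ Real.log Q :=
      Real.log_le_log (by exact_mod_cast hQn1) hQnle
    have hlog0 : 0 ≤ Real.log (Qn : ℝ) := Real.log_natCast_nonneg Qn
    apply mul_le_mul_of_nonneg_left _ (by norm_num)
    apply pow_le_pow_left₀ (by positivity)
    apply mul_le_mul_of_nonneg_left (by linarith) hH0
  have hinv0 : 0 ≤ ∑ Φ ∈ PP, (∏ o ∈ supp Φ, (Φ o : ℝ))⁻¹ :=
    Finset.sum_nonneg fun Φ _ => inv_nonneg.mpr (Finset.prod_nonneg fun o _ => Nat.cast_nonneg _)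
  have hS0 : 0 ≤ Q1 + Q ^ (h + 2) := by positivity
  calc (H : ℝ) * (3 * ((EE.card : ℝ) * ((Q1 + Q ^ (h + 2)) *
        ∑ Φ ∈ PP, (∏ o ∈ supp Φ, (Φ o : ℝ))⁻¹)))
      ≤ (H : ℝ) * (3 * ((10 * ((H : ℝ) + 6) * P ^ 2 + 1) * ((Q1 + Q ^ (h + 2)) *
        (8 * ((H : ℝ) * (1 + Real.log Q)) ^ (h + 2))))) := by
        apply mul_le_mul_of_nonneg_left _ hH0
        apply mul_le_mul_of_nonneg_left _ (by norm_num)
        apply mul_le_mul hEcard _ (by positivity) (by positivity)
        exact mul_le_mul_of_nonneg_left hinv hS0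
    _ = 3 * H * (10 * ((H : ℝ) + 6) * P ^ 2 + 1) * ((Q1 + Q ^ (h + 2)) *
        (8 * ((H : ℝ) * (1 + Real.log Q)) ^ (h + 2))) := by ring

end Pool.Agent.H75G
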